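import Pool.Agent.MP_ce1e3b_an.Cl.Fam

/-! The trilinear form on a general compact space and the main contradiction. -/

open Finset Filter
open scoped BigOperators

namespace Pool.Agent.MP_ce1e3b_an.Cl

variable {β : ℕ → ℝ} {G : ∀ n, Gadget (β n)} {L : Type} [TopologicalSpace L] [CompactSpace L]

/-- Data on a compact space `K` relative to the model space. -/
structure Emb (S : Setup L β G) (K : Type*) [TopologicalSpace K] [CompactSpace K] where
  κ : C(L, K)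
  e : ∀ n, (G n).J → C(K, ℝ)
  cut : ∀ n, IsCut (e n)
  e_κ : ∀ n η, (e n η).comp κ = eL S n η
  lam : C(K, ℝ) →ₗ[ℝ] ℝ
  lam_le : ∀ F, |lam F| ≤ ‖F‖
  F0 : C(K, ℝ)
  F0_norm : ‖F0‖ ≤ 1
  lam_F0 : lam F0 = 1
  D : C(K, ℝ) →ₗ[ℝ] Fam G
  D_le : ∀ F n l, |(D F).1 n l| ≤ ‖F‖
  blk : ∀ n, (Fin (G n).M → ℝ) →ₗ[ℝ] C(K, ℝ)
  blk_le : ∀ n φ, (∀ l, |φ l| ≤ 1) → ∀ x, |blk n φ x| ≤ 1
  lam_blk : ∀ n φ w, lam (w * blk n φ) = 0
  small : ∀ F : C(K, ℝ), ‖F‖ ≤ 1 → 1 / 2 < |lam F| → ∃ᶠ n in atTop,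
    (∀ l, |(D F).1 n l| ≤ 1 / 1000) ∧ ∀ φ, (∀ l, |φ l| ≤ 1) →
      (∀ l, |(D ((1 - |F|) * blk n φ)).1 n l - φ l| ≤ 1 / 1000) ∧
      ∀ n', n' ≠ n → ∀ l, |(D ((1 - |F|) * blk n φ)).1 n' l| ≤ 1 / 1000

namespace Emb

variable {S : Setup L β G} {K : Type*} [TopologicalSpace K] [CompactSpace K] (Z : Emb S K)

/-- Restriction to the model space. -/
noncomputable def R : C(K, ℝ) →ₗ[ℝ] C(L, ℝ) := (ContinuousMap.compRightAlgHom ℝ ℝ Z.κ).toLinearMap

lemma R_def (g : C(K, ℝ)) : Z.R g = g.comp Z.κ := rfl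

lemma R_mul (g h : C(K, ℝ)) : Z.R (g * h) = Z.R g * Z.R h := rfl

lemma R_one : Z.R 1 = 1 := rfl

lemma norm_R_le (g : C(K, ℝ)) : ‖Z.R g‖ ≤ ‖g‖ :=
  (ContinuousMap.norm_le _ (norm_nonneg _)).2 fun x => g.norm_coe_le_norm (Z.κ x)

lemma psi_R (n : ℕ) (b : (G n).J → ℝ) (Q0 : Bil C(L, ℝ)) (g h : C(K, ℝ)) :
    psi (Z.e n) b (Q0.compl₁₂ Z.R Z.R) g h = psi (eL S n) b Q0 (Z.R g) (Z.R h) := by
  have h1 : ∀ η, Z.R (Z.e n η) = eL S n η := Z.e_κ n
  have h2 : Z.R (comb (Z.e n) b) = comb (eL S n) b := by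
    simp only [comb_def, map_sum, map_smul, h1]
  simp only [psi_apply, LinearMap.compl₁₂_apply, R_mul, h1, h2]

variable (hβ : ∀ s : Finset ℕ, ∑ n ∈ s, β n ≤ 1 / 1000)
include hβ

/-- The trilinear form that cannot be approximated. -/
noncomputable def A : Tri C(K, ℝ) where
  toFun F := (Q S hβ (Z.lam F, Z.D F)).compl₁₂ Z.R Z.R
  map_add' F F' := by
    ext g h
    simp only [map_add, LinearMap.compl₁₂_apply, LinearMap.add_apply, ← Prod.mk_add_mk]
  map_smul' c F := by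
    ext g h
    simp only [map_smul, LinearMap.compl₁₂_apply, LinearMap.smul_apply, ← Prod.smul_mk,
      RingHom.id_apply]

lemma A_def (F : C(K, ℝ)) : Z.A hβ F = (Q S hβ (Z.lam F, Z.D F)).compl₁₂ Z.R Z.R := rfl

lemma bddQ {F : C(K, ℝ)} (hF : ‖F‖ ≤ 1) : BddB (Q S hβ (Z.lam F, Z.D F)) (1002 / 1000) :=
  bdd_Q S hβ ((Z.lam_le F).trans hF) fun n l => (Z.D_le F n l).trans hF

lemma bdd_A : Bdd (Z.A hβ) (1002 / 1000) :=
  bdd_of_unit _ _ fun F g h hF hg hh => by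
    rw [A_def, LinearMap.compl₁₂_apply]
    simpa using (Z.bddQ hβ hF).le_mul (by norm_num) ((Z.norm_R_le g).trans hg)
      ((Z.norm_R_le h).trans hh)

lemma A_F0 : Z.A hβ Z.F0 1 1 = 1 := by
  rw [A_def, LinearMap.compl₁₂_apply, R_one, Q_apply, U_apply]
  simp [lev_def, S.T_apply, Z.lam_F0, S.E_one, S.dev_inv (S.inv_one _)]

theorem no_max (B : Tri C(K, ℝ)) (hB : Bdd B (1 / 1000)) {F g h : C(K, ℝ)}
    (hF : ‖F‖ ≤ 1) (hg : ‖g‖ ≤ 1) (hh : ‖h‖ ≤ 1)
    (hmax : ∀ x y z, ‖x‖ ≤ 1 → ‖y‖ ≤ 1 → ‖z‖ ≤ 1 →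
      Z.A hβ x y z + B x y z ≤ Z.A hβ F g h + B F g h) : False := by
  have one_le : ‖(1 : C(K, ℝ))‖ ≤ 1 := (ContinuousMap.norm_le _ zero_le_one).2 (by simp)
  have hA : 1 - 2 / 1000 ≤ Z.A hβ F g h := by
    have e1 := hmax _ _ _ Z.F0_norm one_le one_le
    have e2 := (abs_le.1 (hB.le_mul (by norm_num) Z.F0_norm one_le one_le)).1
    have e3 := (abs_le.1 (hB.le_mul (by norm_num) hF hg hh)).2
    rw [Z.A_F0] at e1
    linarith
  have hg0 := (Z.norm_R_le g).trans hg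
  have hh0 := (Z.norm_R_le h).trans hh
  have hl := (Z.lam_le F).trans hF
  have hD : ∀ n l, |(Z.D F).1 n l| ≤ 1 := fun n l => (Z.D_le F n l).trans hF
  obtain ⟨hE, hlam⟩ := near_max S hβ hl hD hg0 hh0 hA
  obtain ⟨n, ⟨hs, hs2⟩, hgc, hhc⟩ := ((Z.small F hF hlam).and_eventually
    ((S.τ_close (Z.R g) (1 / 1000) (by norm_num)).and
      (S.τ_close (Z.R h) (1 / 1000) (by norm_num)))).exists
  obtain ⟨g', hgi, hgE, hg1, hgg⟩ := S.exists_inv n hg0 hgc
  obtain ⟨h', hhi, hhE, hh1, hhh⟩ := S.exists_inv n hh0 hhc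
  obtain ⟨s, hs1, hsE⟩ : ∃ s : ℝ, |s| = 1 ∧
      s * (S.E (Z.R g) * S.E (Z.R h)) = |S.E (Z.R g) * S.E (Z.R h)| := by
    rcases le_total 0 (S.E (Z.R g) * S.E (Z.R h)) with h0 | h0
    · exact ⟨1, by simp, by rw [abs_of_nonneg h0, one_mul]⟩
    · exact ⟨-1, by simp, by rw [abs_of_nonpos h0]; ring⟩
  have hd : (0 : ℝ) < (G n).d := by have := (G n).hd; positivity
  set c : ℝ := 8 / (G n).d with hc
  set w : C(K, ℝ) := 1 - |F| with hw
  have hwx : ∀ x, |w x| = 1 - |F x| := by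
    intro x
    have := (F.norm_coe_le_norm x).trans hF
    rw [Real.norm_eq_abs] at this
    simp only [hw, ContinuousMap.sub_apply, ContinuousMap.one_apply, ContinuousMap.abs_apply]
    exact abs_of_nonneg (by linarith)
  have hsa : ∀ i l, |(s • (G n).a i) l| ≤ 1 := fun i l => by
    rw [Pi.smul_apply, smul_eq_mul, abs_mul, hs1, one_mul]; exact (G n).ha i l
  set u : Fin (G n).d → C(K, ℝ) := fun i => w * Z.blk n (s • (G n).a i) with hu
  have hu1 : ∀ i, ‖u i‖ ≤ 1 := by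
    intro i
    refine (ContinuousMap.norm_le _ zero_le_one).2 fun x => ?_
    simp only [hu, ContinuousMap.mul_apply, Real.norm_eq_abs, abs_mul, hwx]
    exact mul_le_one₀ (by linarith [abs_nonneg (F x)]) (abs_nonneg _)
      (Z.blk_le n _ (hsa i) x)
  set Y : (G n).J → C(K, ℝ) := fun η => ∑ i, (c * (G n).b i η) • u i with hY
  have hY1 : ∀ η, ‖F + Y η‖ ≤ 1 := by
    intro η
    have e : Y η = w * Z.blk n (fun l => s * (8 * 𝔼 i, (G n).a i l * (G n).b i η)) := by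
      have : (fun l => s * (8 * 𝔼 i, (G n).a i l * (G n).b i η)) =
          ∑ i, (c * (G n).b i η) • (s • (G n).a i) := by
        ext l
        rw [Fintype.expect_eq_sum_div_card, Fintype.card_fin, Finset.sum_div, Finset.mul_sum,
          Finset.mul_sum, Finset.sum_apply]
        refine Finset.sum_congr rfl fun i _ => ?_
        simp only [hc, Pi.smul_apply, smul_eq_mul]; ring
      rw [this, map_sum, Finset.mul_sum]
      simp only [hY, hu, map_smul, mul_smul_comm]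
    refine (ContinuousMap.norm_le _ zero_le_one).2 fun x => ?_
    rw [e, Real.norm_eq_abs, ContinuousMap.add_apply, ContinuousMap.mul_apply]
    refine (abs_add_le _ _).trans ?_
    rw [abs_mul, hwx]
    have e1 := Z.blk_le n (fun l => s * (8 * 𝔼 i, (G n).a i l * (G n).b i η))
      (fun l => by rw [abs_mul, hs1, one_mul]; exact (G n).hy η l) x
    have e2 := (F.norm_coe_le_norm x).trans hF
    rw [Real.norm_eq_abs] at e2
    nlinarith
  have key : ∀ D : Tri C(K, ℝ),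
      ∑ η, (D (F + Y η) (g - (2 : ℝ) • (g * Z.e n η)) (h - (2 : ℝ) • (h * Z.e n η)) - D F g h) =
      psi (Z.e n) 1 (D F) g h + ∑ i, c * psi (Z.e n) ((G n).b i) (D (u i)) g h := by
    intro D
    have e1 := sum_cut (Z.e n) 1 (D F) g h
    have e2 := fun i => sum_cut (Z.e n) ((G n).b i) (D (u i)) g h
    simp only [(G n).hb0, zero_mul, zero_add] at e2
    simp only [Pi.one_apply, one_mul, Finset.sum_mul] at e1
    simp only [← e2, Finset.mul_sum]
    rw [Finset.sum_comm, eq_sub_of_add_eq' e1.symm, ← Finset.sum_sub_distrib,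
      ← Finset.sum_add_distrib]
    refine Finset.sum_congr rfl fun η _ => ?_
    rw [map_add, LinearMap.add_apply, LinearMap.add_apply]
    simp only [hY, map_sum, LinearMap.sum_apply, map_smul (D), LinearMap.smul_apply, smul_eq_mul,
      mul_assoc]
    ring
  have hcd : ∀ r : ℝ, ∑ _i : Fin (G n).d, c * r = 8 * r := by
    intro r
    rw [Finset.sum_const, Finset.card_univ, Fintype.card_fin, nsmul_eq_mul, hc]
    field_simp
  have hc0 : 0 ≤ c := by positivity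
  have hsum : ∑ η, (Z.A hβ (F + Y η) (g - (2 : ℝ) • (g * Z.e n η))
        (h - (2 : ℝ) • (h * Z.e n η)) - Z.A hβ F g h) +
      ∑ η, (B (F + Y η) (g - (2 : ℝ) • (g * Z.e n η))
        (h - (2 : ℝ) • (h * Z.e n η)) - B F g h) ≤ 0 := by
    rw [← Finset.sum_add_distrib]
    refine Finset.sum_nonpos fun η _ => ?_
    have := hmax _ _ _ (hY1 η) ((Z.cut n).norm_flip_le η hg) ((Z.cut n).norm_flip_le η hh)
    linarith
  rw [key, key] at hsum
  have b1 := (abs_le.1 (((bddB_of_bdd hB (by norm_num) hF).psi (Z.cut n) (b := 1) (by simp)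
    (by norm_num)).le_mul (by norm_num) hg hh)).1
  have b2 : ∑ _i : Fin (G n).d, c * (-(8 / 1000)) ≤
      ∑ i, c * psi (Z.e n) ((G n).b i) (B (u i)) g h := by
    refine Finset.sum_le_sum fun i _ => mul_le_mul_of_nonneg_left ?_ hc0
    have := (abs_le.1 (((bddB_of_bdd hB (by norm_num) (hu1 i)).psi (Z.cut n) ((G n).hb i)
      (by norm_num)).le_mul (by norm_num) hg hh)).1
    linarith
  have a1 := ((Z.bddQ hβ hF).psi (isCut_eL S n) (b := 1) (by simp) (by norm_num)).perturb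
    (by norm_num) hg0 hh1 hgg hhh
  have a2 := psi_one_ge S hβ hl hD hs hg1 hh1 hgi hhi
  have a3 : ∑ _i : Fin (G n).d, c * (62 / 100) ≤
      ∑ i, c * psi (Z.e n) ((G n).b i) (Z.A hβ (u i)) g h := by
    refine Finset.sum_le_sum fun i _ => mul_le_mul_of_nonneg_left ?_ hc0
    have e1 := ((Z.bddQ hβ (hu1 i)).psi (isCut_eL S n) ((G n).hb i) (by norm_num)).perturb
      (by norm_num) hg0 hh1 hgg hhh
    have e0 : Z.lam (u i) = 0 := Z.lam_blk n _ w
    have e2 := psi_gain S hβ i (s := s) (φ := Z.D (u i)) (hs2 _ (hsa i)).1 (hs2 _ (hsa i)).2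
      hg1 hh1 hgi hhi (by rw [hgE, hhE, hsE]; exact hE)
    rw [A_def, psi_R]
    rw [e0] at e1 ⊢
    linarith
  rw [hcd] at b2 a3
  rw [A_def, psi_R] at hsum
  linarith

end Emb

end Pool.Agent.MP_ce1e3b_an.Cl
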