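import Mathlib.Topology.MetricSpace.Perfect
import Mathlib.Topology.UrysohnsLemma
import Pool.Agent.MP_ce1e3b_an.Cl.NoMax

/-! Construction of the data on a compact space that contains a metrizable continuum. -/

open Finset Filter Topology
open scoped BigOperators

namespace Pool.Agent.MP_ce1e3b_an.Cl

variable {K C : Type*} [TopologicalSpace K] [CompactSpace K] [T2Space K] [MetricSpace C]
  [CompactSpace C] [ConnectedSpace C] [Nontrivial C] (j : C(C, K)) (hj : Function.Injective j)
include hj

lemma step (I : Type) [Fintype I] [DecidableEq I] (Q : Set C) (hQ : Q.Finite) (c : C) (r : ℝ)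
    (hr : 0 < r) : ∃ (p : I → C) (e : I → C(K, ℝ)) (r' : ℝ), 0 < r' ∧ r' ≤ r / 2 ∧
      (∀ i, dist (p i) c < r) ∧ IsCut e ∧
      (∀ i i', e i (j (p i')) = if i' = i then 1 else 0) ∧ (∀ i, ∀ q ∈ Q, e i (j q) = 0) ∧
      ∀ a b, dist a b < 2 * r' → ∑ i, |e i (j a) - e i (j b)| ≤ 1 / 1000 := by
  have hinf : (Metric.ball c r \ Q).Infinite :=
    (infinite_of_mem_nhds c (Metric.ball_mem_nhds c hr)).sdiff hQ
  obtain ⟨k, hk⟩ := exists_injective_nat I
  let p : I → C := fun i => hinf.natEmbedding _ (k i)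
  have hp : Function.Injective p := fun i i' h =>
    hk ((hinf.natEmbedding _).injective (Subtype.ext h))
  have hpm : ∀ i, p i ∈ Metric.ball c r \ Q := fun i => (hinf.natEmbedding _ (k i)).2
  obtain ⟨e, he, he2⟩ := exists_cut (K := K) (J := Option I)
    (fun o => o.elim (j '' Q) fun i => {j (p i)})
    (by
      rintro (_ | i)
      · exact (hQ.image j).isClosed
      · exact isClosed_singleton)
    (by
      rintro (_ | i) (_ | i') x h1 h2
      · rfl
      · obtain ⟨q, hq, rfl⟩ := h1
        exact absurd (hj h2 ▸ hq) (hpm i').2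
      · obtain ⟨q, hq, rfl⟩ := h2
        exact absurd (hj h1 ▸ hq) (hpm i).2
      · exact congrArg some (hp (hj (h1.symm.trans h2))))
  have hc : Continuous fun z : C × C => ∑ i : I, |e (some i) (j z.1) - e (some i) (j z.2)| := by
    fun_prop
  obtain ⟨ρ, hρ, hρ2⟩ := Metric.uniformContinuous_iff.1
    (CompactSpace.uniformContinuous_of_continuous hc) (1 / 1000) (by norm_num)
  refine ⟨p, fun i => e (some i), min (r / 2) (ρ / 2), by positivity, min_le_left _ _,
    fun i => (hpm i).1, ⟨fun i => he.nonneg _, fun x => ?_⟩, fun i i' => ?_, fun i q hq => ?_,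
    fun a b hab => ?_⟩
  · have := he.sum_le x
    rw [Fintype.sum_option] at this
    linarith [he.nonneg none x]
  · simpa using he2 (some i) (some i') (j (p i')) rfl
  · simpa using he2 (some i) none (j q) ⟨q, hq, rfl⟩
  · have := hρ2 (a := (a, b)) (b := (b, b)) (by
      rw [Prod.dist_eq, dist_self, max_eq_left dist_nonneg]
      linarith [min_le_right (r / 2) (ρ / 2)])
    simp only [sub_self, abs_zero, Finset.sum_const_zero, Real.dist_eq, sub_zero] at this
    exact (le_abs_self _).trans this.le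

lemma exists_blocks (I : ℕ → Type) [∀ n, Fintype (I n)] [∀ n, DecidableEq (I n)] (x0 x1 : C)
    (c : ℕ → C) : ∃ (p : ∀ n, I n → C) (e : ∀ n, I n → C(K, ℝ)) (r : ℕ → ℝ),
      Antitone r ∧ Tendsto r atTop (𝓝 0) ∧ (∀ n i, dist (p n i) (c n) < r n) ∧
      (∀ n, IsCut (e n)) ∧ (∀ n i i', e n i (j (p n i')) = if i' = i then 1 else 0) ∧
      (∀ n i, e n i (j x0) = 0 ∧ e n i (j x1) = 0) ∧
      (∀ n n' i i', n' < n → e n i (j (p n' i')) = 0) ∧
      ∀ n a b, dist a b < 2 * r (n + 1) → ∑ i, |e n i (j a) - e n i (j b)| ≤ 1 / 1000 := by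
  choose P E R h1 h2 h3 h4 h5 h6 h7 using
    fun (n : ℕ) (s : {Q : Set C // Q.Finite} × {r : ℝ // 0 < r}) =>
      step j hj (I n) s.1.1 s.1.2 (c n) s.2.1 s.2.2
  let st : ℕ → {Q : Set C // Q.Finite} × {r : ℝ // 0 < r} := fun n => Nat.rec
    (⟨{x0, x1}, Set.toFinite _⟩, ⟨1, one_pos⟩)
    (fun n s => (⟨s.1.1 ∪ Set.range (P n s), s.1.2.union (Set.finite_range _)⟩, ⟨R n s, h1 n s⟩)) n
  have q1 : ∀ n, (st (n + 1)).1.1 = (st n).1.1 ∪ Set.range (P n (st n)) := fun n => rfl
  have q2 : ∀ n, (st (n + 1)).2.1 = R n (st n) := fun n => rfl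
  have mono : Monotone fun n => (st n).1.1 :=
    monotone_nat_of_le_succ fun n => by rw [q1]; exact Set.subset_union_left
  have half : ∀ n, (st (n + 1)).2.1 ≤ (st n).2.1 / 2 := fun n => h2 n (st n)
  refine ⟨fun n => P n (st n), fun n => E n (st n), fun n => (st n).2.1,
    antitone_nat_of_succ_le fun n => by linarith [half n, (st n).2.2], ?_, fun n => h3 n _,
    fun n => h4 n _, fun n => h5 n _, fun n i => ⟨h6 n _ i _ ?_, h6 n _ i _ ?_⟩,
    fun n n' i i' h => h6 n _ i _ ?_, fun n => h7 n _⟩
  · refine squeeze_zero (fun n => (st n).2.2.le) (fun n => ?_)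
      (tendsto_pow_atTop_nhds_zero_of_lt_one (r := 1 / 2) (by norm_num) (by norm_num))
    induction n with
    | zero => exact le_of_eq (pow_zero _).symm
    | succ n ih => rw [pow_succ]; linarith [half n]
  · exact mono (Nat.zero_le n) (Set.mem_insert _ _)
  · exact mono (Nat.zero_le n) (Set.mem_insert_of_mem _ rfl)
  · exact mono (Nat.succ_le_of_lt h) (Set.mem_union_right _ ⟨i', rfl⟩)

variable {β : ℕ → ℝ} {G : ∀ n, Gadget (β n)}

omit [CompactSpace K] [T2Space K] in
lemma exists_inj (G : ∀ n, Gadget (β n)) : ∃ ι : C(Grp G, K), Function.Injective ι := by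
  have hP : Perfect (Set.univ : Set C) := ⟨isClosed_univ, PerfectSpace.univ_preperfect⟩
  obtain ⟨f, -, hf1, hf2⟩ := hP.exists_nat_bool_injection Set.univ_nonempty
  have : Nonempty (Σ n, Fin (G n).d) := ⟨⟨0, ⟨0, by have := (G 0).hd; omega⟩⟩⟩
  obtain ⟨s, hs⟩ := exists_surjective_nat (Σ n, Fin (G n).d)
  let enc : Grp G → ℕ → Bool := fun ω k => decide (ω (s k).1 (s k).2 = 0)
  have h1 : Continuous enc := continuous_pi fun k =>
    (continuous_of_discreteTopology (f := fun z : ZMod 2 => decide (z = 0))).comp (by fun_prop)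
  have h2 : Function.Injective enc := by
    intro ω ω' h
    funext n i
    obtain ⟨k, hk⟩ := hs ⟨n, i⟩
    have h3 := congrFun h k
    simp only [enc] at h3
    rw [hk] at h3
    have : ∀ a b : ZMod 2, decide (a = 0) = decide (b = 0) → a = b := by decide
    exact this _ _ h3
  exact ⟨⟨fun ω => j (f (enc ω)), by fun_prop⟩, hj.comp (hf2.comp h2)⟩

/-- Odd extension to pairs. -/
def odd (M : ℕ) : (Fin M → ℝ) →ₗ[ℝ] (Fin M × Bool → ℝ) where
  toFun φ i := if i.2 then φ i.1 else -φ i.1
  map_add' φ ψ := by ext i; simp only [Pi.add_apply]; split_ifs <;> ring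
  map_smul' c φ := by
    ext i; simp only [Pi.smul_apply, smul_eq_mul, RingHom.id_apply]; split_ifs <;> ring

omit hj in
lemma abs_odd_le {M : ℕ} {φ : Fin M → ℝ} (h : ∀ l, |φ l| ≤ 1) (i : Fin M × Bool) :
    |odd M φ i| ≤ 1 := by
  simp only [odd, LinearMap.coe_mk, AddHom.coe_mk]
  split_ifs
  · exact h _
  · rw [abs_neg]; exact h _

theorem exists_emb {L : Type} [TopologicalSpace L] [CompactSpace L] (S : Setup L β G) :
    Nonempty (Emb S K) := by
  obtain ⟨x0, x1, hx⟩ := exists_pair_ne C
  obtain ⟨ι, hι⟩ := exists_inj j hj G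
  have hcut : ∀ n, ∃ e : (G n).J → C(K, ℝ), IsCut e ∧
      ∀ η η' x, x ∈ ι '' {ω | ω n = η'} → e η x = if η' = η then 1 else 0 := fun n =>
    exists_cut (fun η => ι '' {ω | ω n = η})
      (fun η => ((isClosed_eq (by fun_prop) continuous_const).isCompact.image
        ι.continuous).isClosed)
      (by
        rintro η η' x ⟨ω, h1, rfl⟩ ⟨ω', h2, h3⟩
        rw [hι h3] at h2
        exact h1.symm.trans h2)
  choose e he he2 using hcut
  obtain ⟨p, b, r, r1, r2, r3, b1, b2, b3, b4, b5⟩ := exists_blocks j hj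
    (fun n => Fin (G n).M × Bool) x0 x1
    (fun n => TopologicalSpace.denseSeq C (Nat.unpair n).1)
  obtain ⟨f0, f1, f2, f3⟩ := exists_continuous_zero_one_of_isClosed (X := K)
    (isClosed_singleton (x := j x0)) (isClosed_singleton (x := j x1))
    (Set.disjoint_singleton.2 fun h => hx (hj h))
  have hhalf : ∀ (F : C(K, ℝ)) (x y : K), |(F x - F y) / 2| ≤ ‖F‖ := by
    intro F x y
    have h1 := abs_le.1 (F.norm_coe_le_norm x)
    have h2 := abs_le.1 (F.norm_coe_le_norm y)
    exact abs_le.2 ⟨by linarith [h1.1, h2.2], by linarith [h1.2, h2.1]⟩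
  let D : C(K, ℝ) →ₗ[ℝ] Fam G :=
    { toFun := fun F => ⟨fun n l => (F (j (p n (l, true))) - F (j (p n (l, false)))) / 2,
        ‖F‖ + 1, by positivity, fun n l => (hhalf F _ _).trans (by linarith)⟩
      map_add' := fun F F' => by ext n l; simp; ring
      map_smul' := fun c F => by ext n l; simp; ring }
  have hD : ∀ F n l, (D F).1 n l = (F (j (p n (l, true))) - F (j (p n (l, false)))) / 2 :=
    fun _ _ _ => rfl
  refine ⟨{
    κ := ι.comp ⟨fun x n => S.π n x, by fun_prop⟩
    e := e
    cut := he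
    e_κ := fun n η => ?_
    lam := ⟨⟨fun F => (F (j x1) - F (j x0)) / 2, fun F F' => by simp; ring⟩,
      fun c F => by simp; ring⟩
    lam_le := fun F => hhalf F _ _
    F0 := (2 : ℝ) • f0 - 1
    F0_norm := (ContinuousMap.norm_le _ zero_le_one).2 fun x => ?_
    lam_F0 := ?_
    D := D
    D_le := fun F n l => hhalf F _ _
    blk := fun n => (comb (b n)).comp (odd _)
    blk_le := fun n φ hφ x => (b1 n).abs_comb_le zero_le_one (abs_odd_le hφ) x
    lam_blk := fun n φ w => by simp [comb_apply, b3]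
    small := fun F hF hl => ?_ }⟩
  · ext x
    refine (he2 n η (S.π n x) _ ⟨fun n => S.π n x, rfl, rfl⟩).trans ?_
    simp [eL, Pi.single_apply]
  · have := f3 x
    simp only [ContinuousMap.sub_apply, ContinuousMap.smul_apply, ContinuousMap.one_apply,
      smul_eq_mul, Real.norm_eq_abs]
    exact abs_le.2 ⟨by linarith [this.1], by linarith [this.2]⟩
  · have a1 : f0 (j x0) = 0 := f1 rfl
    have a2 : f0 (j x1) = 1 := f2 rfl
    simp [a1, a2]
  · have n1 : ∀ x, |F x| ≤ 1 := fun x => (F.norm_coe_le_norm x).trans hF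
    have h1 := abs_le.1 (n1 (j x1))
    have h2 := abs_le.1 (n1 (j x0))
    simp only [LinearMap.coe_mk, AddHom.coe_mk] at hl
    have hc : Continuous fun s : C => F (j s) := by fun_prop
    obtain ⟨t, ht⟩ : ∃ t : C, F (j t) = 0 := by
      rcases lt_abs.1 hl with h | h
      · exact intermediate_value_univ x0 x1 hc ⟨by linarith [h1.2], by linarith [h2.1]⟩
      · exact intermediate_value_univ x1 x0 hc ⟨by linarith [h2.2], by linarith [h1.1]⟩
    obtain ⟨ρ, hρ, hρ2⟩ := Metric.uniformContinuous_iff.1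
      (CompactSpace.uniformContinuous_of_continuous hc) (1 / 1000) (by norm_num)
    simp only [Real.dist_eq] at hρ2
    obtain ⟨k, hk⟩ := (TopologicalSpace.denseRange_denseSeq C).exists_dist_lt t (half_pos hρ)
    obtain ⟨N, hN⟩ := eventually_atTop.1 (r2.eventually (ge_mem_nhds (half_pos hρ)))
    rw [frequently_atTop]
    intro M
    set n := Nat.pair k (max M N) with hn
    have hrn : r n ≤ ρ / 2 := hN n ((le_max_right _ _).trans (Nat.right_le_pair _ _))
    have hsm : ∀ i, |F (j (p n i))| ≤ 1 / 1000 := by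
      intro i
      have a1 := r3 n i
      simp only [hn, Nat.unpair_pair] at a1
      have a2 := hρ2 (a := p n i) (b := t) (by
        linarith [dist_triangle_right (p n i) t (TopologicalSpace.denseSeq C k)])
      rw [ht, sub_zero] at a2
      exact a2.le
    refine ⟨n, (le_max_left _ _).trans (Nat.right_le_pair _ _), fun l => ?_,
      fun φ hφ => ⟨fun l => ?_, fun n' hn' l => ?_⟩⟩
    · have a1 := abs_le.1 (hsm (l, true))
      have a2 := abs_le.1 (hsm (l, false))
      rw [hD]
      exact abs_le.2 ⟨by linarith [a1.1, a2.2], by linarith [a1.2, a2.1]⟩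
    · have a1 := hsm (l, true)
      have a2 := hsm (l, false)
      have a3 : (D ((1 - |F|) * ((comb (b n)).comp (odd _)) φ)).1 n l - φ l =
          -((|F (j (p n (l, true)))| + |F (j (p n (l, false)))|) / 2 * φ l) := by
        rw [hD]
        simp [comb_apply, b2, odd]
        ring
      rw [a3, abs_neg, abs_mul, abs_of_nonneg (by positivity)]
      exact (mul_le_of_le_one_right (by positivity) (hφ l)).trans (by linarith)
    · rw [hD]
      rcases lt_or_gt_of_ne hn' with h | h
      · simp [comb_apply, b4 n n' _ _ h]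
      · set x := p n' (l, true)
        set y := p n' (l, false)
        have d1 : dist x y < 2 * r (n + 1) := by
          have a1 := r3 n' (l, true)
          have a2 := r3 n' (l, false)
          have a3 := r1 (Nat.succ_le_of_lt h)
          linarith [dist_triangle_right x y (TopologicalSpace.denseSeq C (Nat.unpair n').1)]
        have d2 := hρ2 (a := x) (b := y) (by linarith [r1 (Nat.le_succ n)])
        have d3 := b5 n x y d1
        set u := comb (b n) (odd _ φ) with hu
        have d4 : |u (j x) - u (j y)| ≤ 1 / 1000 := by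
          rw [hu, comb_apply, comb_apply, ← Finset.sum_sub_distrib]
          refine (Finset.abs_sum_le_sum_abs _ _).trans (le_trans ?_ d3)
          refine Finset.sum_le_sum fun i _ => ?_
          rw [← mul_sub, abs_mul]
          exact mul_le_of_le_one_left (abs_nonneg _) (abs_odd_le hφ i)
        have d5 : |u (j x)| ≤ 1 := (b1 n).abs_comb_le zero_le_one (abs_odd_le hφ) _
        have d6 := (abs_abs_sub_abs_le_abs_sub (F (j x)) (F (j y))).trans d2.le
        have d7 : (1 - |F (j x)|) * u (j x) - (1 - |F (j y)|) * u (j y) =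
            (1 - |F (j y)|) * (u (j x) - u (j y)) - (|F (j x)| - |F (j y)|) * u (j x) := by ring
        have d8 : |(1 - |F (j y)|) * (u (j x) - u (j y))| ≤ 1 / 1000 := by
          rw [abs_mul, abs_of_nonneg (by linarith [n1 (j y)])]
          exact (mul_le_of_le_one_left (abs_nonneg _) (by linarith [abs_nonneg (F (j y))])).trans d4
        have d9 : |(|F (j x)| - |F (j y)|) * u (j x)| ≤ 1 / 1000 := by
          rw [abs_mul]
          exact (mul_le_of_le_one_right (abs_nonneg _) d5).trans d6
        change |((1 - |F (j x)|) * u (j x) - (1 - |F (j y)|) * u (j y)) / 2| ≤ _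
        rw [d7, abs_div, abs_two]
        linarith [abs_sub ((1 - |F (j y)|) * (u (j x) - u (j y))) ((|F (j x)| - |F (j y)|) * u (j x))]

end Pool.Agent.MP_ce1e3b_an.Cl
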