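import Mathlib.Analysis.Convex.Cone.Extension
import Mathlib.Analysis.SpecialFunctions.Exp
import Mathlib.Analysis.Complex.Exponential

/-! A functional on a normed algebra that almost attains its norm at the unit is close to one that
attains it there. -/

namespace Pool.Agent.MP_ce1e3b_an.Cl

variable {V : Type*} [CommRing V] [Algebra ℝ V]

/-- Submultiplicative seminorm with the unit in the ball. -/
structure AlgSemi (q : V → ℝ) : Prop where
  add : ∀ x y, q (x + y) ≤ q x + q y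
  smul : ∀ (c : ℝ) x, q (c • x) = |c| * q x
  mul : ∀ x y, q (x * y) ≤ q x * q y
  one : q 1 = 1

namespace AlgSemi

variable {q : V → ℝ} (hq : AlgSemi q)
include hq

lemma zero : q 0 = 0 := by simpa using hq.smul 0 0

lemma neg (x : V) : q (-x) = q x := by simpa using hq.smul (-1) x

lemma nonneg (x : V) : 0 ≤ q x := by
  have := hq.add x (-x)
  rw [add_neg_cancel, hq.zero, hq.neg] at this
  linarith

lemma smul_one {r : ℝ} (hr : 0 ≤ r) : q (r • (1 : V)) = r := by
  rw [hq.smul, hq.one, abs_of_nonneg hr, mul_one]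

lemma pow_le (x : V) {a : ℝ} (ha : q x ≤ a) (n : ℕ) : q (x ^ n) ≤ a ^ n := by
  induction n with
  | zero => simp [hq.one]
  | succ n ih =>
    rw [pow_succ, pow_succ]
    exact (hq.mul _ _).trans (mul_le_mul ih ha (hq.nonneg _)
      (pow_nonneg ((hq.nonneg _).trans ha) _))

lemma rem_le (y : V) {τ : ℝ} (hτ : q y ≤ τ) (n : ℕ) :
    q ((1 + y) ^ n - 1 - (n : ℝ) • y) ≤ (1 + τ) ^ n - 1 - n * τ := by
  have h0 : 0 ≤ τ := (hq.nonneg y).trans hτ
  induction n with
  | zero => simp [hq.zero]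
  | succ n ih =>
    have e : (1 + y) ^ (n + 1) - 1 - ((n + 1 : ℕ) : ℝ) • y =
        ((1 + y) ^ n - 1 - (n : ℝ) • y) * (1 + y) + (n : ℝ) • (y * y) := by
      simp only [Nat.cast_smul_eq_nsmul, nsmul_eq_mul]
      push_cast
      ring
    have h1 : q (1 + y) ≤ 1 + τ := (hq.add _ _).trans (by rw [hq.one]; linarith)
    have h2 : q (y * y) ≤ τ * τ := (hq.mul _ _).trans (mul_le_mul hτ hτ (hq.nonneg _) h0)
    have h3 := (hq.mul ((1 + y) ^ n - 1 - (n : ℝ) • y) (1 + y)).trans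
      (mul_le_mul ih h1 (hq.nonneg _) ((hq.nonneg _).trans ih))
    have h4 : q ((n : ℝ) • (y * y)) ≤ n * (τ * τ) := by
      rw [hq.smul, abs_of_nonneg (Nat.cast_nonneg n)]
      exact mul_le_mul_of_nonneg_left h2 (Nat.cast_nonneg n)
    rw [e]
    refine (hq.add _ _).trans ?_
    push_cast
    rw [pow_succ]
    nlinarith

lemma key_unit (A : V →ₗ[ℝ] ℝ) (hA : ∀ z, A z ≤ q z) {t : ℝ} (ht : 0 < t) (ht1 : t ≤ 1)
    (h1 : 1 - t ^ 2 ≤ A 1) {z : V} (hz : q z ≤ 1) {r : ℝ} (hr : 0 ≤ r) :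
    A z - 3 * t ≤ q (z + r • 1) - r := by
  set a := q (z + r • 1) - r with ha
  have ha1 : a ≤ 1 := by
    have := hq.add z (r • 1)
    rw [hq.smul_one hr] at this
    linarith
  have ha2 : -1 ≤ a := by
    have := hq.add (z + r • 1) (-z)
    rw [hq.neg, add_neg_cancel_comm, hq.smul_one hr] at this
    linarith
  obtain ⟨n, hn⟩ := exists_nat_gt (max (r * t) 1)
  have hn1 : (1 : ℝ) < n := (le_max_right _ _).trans_lt hn
  have hn2 : r * t < n := (le_max_left _ _).trans_lt hn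
  have hn0 : (0 : ℝ) < n := by linarith
  set y : V := (t / n) • z with hy
  have htn : 0 < t / n := by positivity
  have hy1 : q y ≤ t / n := by
    rw [hy, hq.smul, abs_of_pos htn]
    exact mul_le_of_le_one_right htn.le hz
  have hy2 : q (1 + y) ≤ 1 + t * a / n := by
    have e : 1 + y = (t / n) • (z + r • 1) + (1 - t / n * r) • (1 : V) := by
      rw [hy, smul_add, smul_smul, sub_smul, one_smul]
      abel
    have h2 : 0 ≤ 1 - t / n * r := by
      rw [sub_nonneg, div_mul_eq_mul_div, div_le_one hn0]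
      linarith
    rw [e]
    refine (hq.add _ _).trans ?_
    rw [hq.smul_one h2, hq.smul, abs_of_pos htn, ha]
    apply le_of_eq
    field_simp
    ring
  have hexp : ∀ x : ℝ, |x| ≤ 1 → (1 + x / n) ^ n ≤ 1 + x + x ^ 2 := by
    intro x hx
    have e1 : 0 ≤ 1 + x / n := by
      have : -1 ≤ x / n := by
        rw [le_div_iff₀ hn0]
        linarith [(abs_le.1 hx).1]
      linarith
    have e2 : (1 + x / n) ^ n ≤ Real.exp (x / n) ^ n :=
      pow_le_pow_left₀ e1 (by linarith [Real.add_one_le_exp (x / n)]) n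
    rw [← Real.exp_nat_mul, mul_div_cancel₀ _ hn0.ne'] at e2
    have e3 := (abs_le.1 (Real.abs_exp_sub_one_sub_id_le hx)).2
    linarith
  have hta : |t * a| ≤ t := by
    rw [abs_mul, abs_of_pos ht]
    exact mul_le_of_le_one_right ht.le (abs_le.2 ⟨ha2, ha1⟩)
  have p1 := (hq.pow_le (1 + y) hy2 n).trans (hexp (t * a) (hta.trans ht1))
  have p2 := hq.rem_le y hy1 n
  have p3 := hexp t (by rw [abs_of_pos ht]; exact ht1)
  rw [mul_div_cancel₀ _ hn0.ne'] at p2
  have p4 := hA ((1 + y) ^ n)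
  have p5 := hA (-((1 + y) ^ n - 1 - (n : ℝ) • y))
  rw [hq.neg, map_neg, map_sub, map_sub, map_smul, hy, map_smul, smul_eq_mul, smul_eq_mul,
    ← mul_assoc, mul_div_cancel₀ _ hn0.ne', ← hy] at p5
  have p6 : (t * a) ^ 2 ≤ t ^ 2 := by
    rw [← sq_abs]
    exact pow_le_pow_left₀ (abs_nonneg _) hta 2
  have p7 : t * (A z - 3 * t) ≤ t * a := by nlinarith
  exact le_of_mul_le_mul_left p7 ht

lemma key (A : V →ₗ[ℝ] ℝ) (hA : ∀ z, A z ≤ q z) {t : ℝ} (ht : 0 < t) (ht1 : t ≤ 1)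
    (h1 : 1 - t ^ 2 ≤ A 1) (w : V) {r : ℝ} (hr : 0 ≤ r) :
    A w - 3 * t * q w ≤ q (w + r • 1) - r := by
  rcases (hq.nonneg w).eq_or_lt with h0 | h0
  · have e1 := hA w
    have e2 := hq.add (w + r • 1) (-w)
    rw [hq.neg, add_neg_cancel_comm, hq.smul_one hr] at e2
    rw [← h0] at e1 e2 ⊢
    linarith
  · have e1 := hq.key_unit A hA ht ht1 h1 (z := (q w)⁻¹ • w) (r := (q w)⁻¹ * r)
      (by rw [hq.smul, abs_of_pos (inv_pos.2 h0), inv_mul_cancel₀ h0.ne']) (by positivity)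
    rw [← smul_smul, ← smul_add, hq.smul, abs_of_pos (inv_pos.2 h0), map_smul, smul_eq_mul] at e1
    have e2 := mul_le_mul_of_nonneg_left e1 h0.le
    have e3 : q w * (q w)⁻¹ = 1 := mul_inv_cancel₀ h0.ne'
    calc A w - 3 * t * q w = q w * ((q w)⁻¹ * A w - 3 * t) := by
          rw [mul_sub, ← mul_assoc, e3]; ring
      _ ≤ _ := e2
      _ = _ := by rw [mul_sub, ← mul_assoc, ← mul_assoc, e3]; ring

/-- The main statement on normed algebras. -/
theorem exists_state (A : V →ₗ[ℝ] ℝ) (hA : ∀ z, A z ≤ q z) {t : ℝ} (ht : 0 < t) (ht1 : t ≤ 1)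
    (h1 : 1 - t ^ 2 ≤ A 1) :
    ∃ B : V →ₗ[ℝ] ℝ, (∀ z, |B z| ≤ q z) ∧ B 1 = 1 ∧ ∀ z, |A z - B z| ≤ 3 * t * q z := by
  let φ : V → V × {r : ℝ // 0 ≤ r} → ℝ := fun z s =>
    q (z + s.1 + (s.2 : ℝ) • 1) - s.2 - A s.1 + 3 * t * q s.1
  have hlow : ∀ z s, -q z ≤ φ z s := by
    rintro z ⟨w, r, hr⟩
    have e1 := hq.key A hA ht ht1 h1 w hr
    have e2 := hq.add (z + w + r • 1) (-z)
    rw [hq.neg, show z + w + r • (1 : V) + -z = w + r • 1 by abel] at e2
    simp only [φ]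
    linarith
  have hbdd : ∀ z, BddBelow (Set.range (φ z)) := fun z => ⟨-q z, by
    rintro _ ⟨s, rfl⟩; exact hlow z s⟩
  have : Nonempty (V × {r : ℝ // 0 ≤ r}) := ⟨(0, ⟨0, le_rfl⟩)⟩
  let N : V → ℝ := fun z => ⨅ s, φ z s
  have hN : ∀ z s, N z ≤ φ z s := fun z s => ciInf_le (hbdd z) s
  have hhom : ∀ c : ℝ, 0 < c → ∀ x, N (c • x) ≤ c * N x := by
    intro c hc x
    rw [Real.mul_iInf_of_nonneg hc.le]
    refine le_ciInf fun ⟨w, r, hr⟩ => ?_
    refine (hN _ (c • w, ⟨c * r, by positivity⟩)).trans (le_of_eq ?_)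
    simp only [φ]
    rw [← smul_smul, ← smul_add, ← smul_add, hq.smul, hq.smul, map_smul, abs_of_pos hc,
      smul_eq_mul]
    ring
  obtain ⟨B, -, hB⟩ := exists_extension_of_le_sublinear (⟨⊥, 0⟩ : V →ₗ.[ℝ] ℝ) N
    (fun c hc x => by
      refine le_antisymm (hhom c hc x) ?_
      have := hhom c⁻¹ (inv_pos.2 hc) (c • x)
      rw [smul_smul, inv_mul_cancel₀ hc.ne', one_smul] at this
      calc c * N x ≤ c * (c⁻¹ * N (c • x)) := mul_le_mul_of_nonneg_left this hc.le
        _ = _ := by rw [← mul_assoc, mul_inv_cancel₀ hc.ne', one_mul])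
    (fun x y => by
      refine le_ciInf_add_ciInf fun ⟨w, r, hr⟩ ⟨w', r', hr'⟩ => ?_
      refine (hN _ (w + w', ⟨r + r', by positivity⟩)).trans ?_
      simp only [φ]
      have e1 := hq.add (x + w + r • 1) (y + w' + r' • 1)
      have e2 := mul_le_mul_of_nonneg_left (hq.add w w') (show 0 ≤ 3 * t by positivity)
      rw [show x + y + (w + w') + (r + r') • (1 : V) = x + w + r • 1 + (y + w' + r' • 1) by
        rw [add_smul]; abel, map_add]
      linarith)
    (fun x => by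
      obtain ⟨x, hx⟩ := x
      obtain rfl : x = 0 := by simpa using hx
      have : -q 0 ≤ N 0 := le_ciInf (hlow 0)
      rw [hq.zero] at this
      simpa using this)
  have b1 : ∀ z, B z ≤ q z := fun z => (hB z).trans ((hN z (0, ⟨0, le_rfl⟩)).trans (by
    simp only [φ, add_zero, zero_smul, hq.zero, map_zero]; linarith))
  have b2 : ∀ z, A z - B z ≤ 3 * t * q z := fun z => by
    have := (hB (-z)).trans (hN (-z) (z, ⟨0, le_rfl⟩))
    simp only [φ, neg_add_cancel, zero_smul, add_zero, hq.zero, map_neg] at this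
    linarith
  refine ⟨B, fun z => abs_le.2 ⟨?_, b1 z⟩, le_antisymm ((b1 1).trans hq.one.le) ?_,
    fun z => abs_le.2 ⟨?_, b2 z⟩⟩
  · have := b1 (-z)
    rw [hq.neg, map_neg] at this
    linarith
  · have := (hB (-1)).trans (hN (-1) (0, ⟨1, zero_le_one⟩))
    simp only [φ, add_zero, one_smul, neg_add_cancel, hq.zero, map_neg, map_zero] at this
    linarith
  · have := b2 (-z)
    rw [hq.neg, map_neg, map_neg] at this
    linarith

end AlgSemi

end Pool.Agent.MP_ce1e3b_an.Cl
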