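import Mathlib.Topology.PartitionOfUnity
import Pool.Agent.MP_ce1e3b_an.Tri

/-! Bump families and the averaged test expression for bilinear forms. -/

open Finset
open scoped BigOperators

namespace Pool.Agent.MP_ce1e3b_an.Cl

/-- Curried bilinear forms. -/
abbrev Bil (X : Type*) [AddCommGroup X] [Module ℝ X] := X →ₗ[ℝ] X →ₗ[ℝ] ℝ

section
variable {X : Type*} [NormedAddCommGroup X] [NormedSpace ℝ X]

/-- `c` is a bound for the bilinear form `Q`. -/
def BddB (Q : Bil X) (c : ℝ) : Prop := ∀ y z, |Q y z| ≤ c * ‖y‖ * ‖z‖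

lemma BddB.le_mul {Q : Bil X} {c : ℝ} (h : BddB Q c) (hc : 0 ≤ c) {y z : X} {b d : ℝ}
    (hy : ‖y‖ ≤ b) (hz : ‖z‖ ≤ d) : |Q y z| ≤ c * b * d := by
  refine (h y z).trans ?_
  have := norm_nonneg y
  have := norm_nonneg z
  have : 0 ≤ b := by linarith
  gcongr

lemma bddB_of_unit (Q : Bil X) (c : ℝ) (h : ∀ y z, ‖y‖ ≤ 1 → ‖z‖ ≤ 1 → |Q y z| ≤ c) :
    BddB Q c := by
  intro y z
  obtain ⟨v, hv, hy⟩ := exists_unit y
  obtain ⟨w, hw, hz⟩ := exists_unit z
  have key : |Q y z| = ‖y‖ * ‖z‖ * |Q v w| := by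
    conv_lhs => rw [hy, hz]
    simp only [map_smul, LinearMap.smul_apply, smul_eq_mul, abs_mul, abs_norm]
    ring
  rw [key]
  calc _ ≤ ‖y‖ * ‖z‖ * c := mul_le_mul_of_nonneg_left (h v w hv hw) (by positivity)
    _ = _ := by ring

lemma BddB.perturb {Q : Bil X} {c δ : ℝ} (h : BddB Q c) (hc : 0 ≤ c) {y z y' z' : X}
    (hy : ‖y‖ ≤ 1) (hz' : ‖z'‖ ≤ 1) (hyy : ‖y' - y‖ ≤ δ) (hzz : ‖z' - z‖ ≤ δ) :
    Q y' z' - 2 * c * δ ≤ Q y z := by
  have e : Q y' z' - Q y z = Q (y' - y) z' + Q y (z' - z) := by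
    simp only [map_sub, LinearMap.sub_apply]; ring
  have h1 := (abs_le.1 (h.le_mul hc hyy hz')).2
  have h2 := (abs_le.1 (h.le_mul hc hy hzz)).2
  linarith

lemma bddB_of_bdd {B : Tri X} {c : ℝ} (h : Bdd B c) (hc : 0 ≤ c) {x : X} (hx : ‖x‖ ≤ 1) :
    BddB (B x) c := fun y z => by
  simpa using h.le_mul hc hx (le_refl ‖y‖) (le_refl ‖z‖)

end

section
variable {K J : Type*} [TopologicalSpace K] [Fintype J]

/-- Nonnegative functions with sum at most one. -/
structure IsCut (e : J → C(K, ℝ)) : Prop where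
  nonneg : ∀ η x, 0 ≤ e η x
  sum_le : ∀ x, ∑ η, e η x ≤ 1

/-- Linear combination of bumps. -/
noncomputable def comb (e : J → C(K, ℝ)) : (J → ℝ) →ₗ[ℝ] C(K, ℝ) where
  toFun b := ∑ η, b η • e η
  map_add' b b' := by simp [add_smul, Finset.sum_add_distrib]
  map_smul' c b := by simp [Finset.smul_sum, smul_smul]

lemma comb_def (e : J → C(K, ℝ)) (b : J → ℝ) : comb e b = ∑ η, b η • e η := rfl

lemma comb_apply (e : J → C(K, ℝ)) (b : J → ℝ) (x : K) : comb e b x = ∑ η, b η * e η x := by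
  simp [comb_def, ContinuousMap.sum_apply]

lemma IsCut.abs_comb_le {e : J → C(K, ℝ)} (he : IsCut e) {b : J → ℝ} {c : ℝ} (hc : 0 ≤ c)
    (hb : ∀ η, |b η| ≤ c) (x : K) : |comb e b x| ≤ c := by
  rw [comb_apply]
  refine (Finset.abs_sum_le_sum_abs _ _).trans ?_
  calc ∑ η, |b η * e η x| ≤ ∑ η, c * e η x := Finset.sum_le_sum fun η _ => by
        rw [abs_mul, abs_of_nonneg (he.nonneg η x)]
        exact mul_le_mul_of_nonneg_right (hb η) (he.nonneg η x)
    _ ≤ c := by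
        rw [← Finset.mul_sum]
        exact mul_le_of_le_one_right hc (he.sum_le x)

lemma IsCut.le_one {e : J → C(K, ℝ)} (he : IsCut e) (η : J) (x : K) : e η x ≤ 1 :=
  (Finset.single_le_sum (f := fun η => e η x) (fun η _ => he.nonneg η x)
    (Finset.mem_univ η)).trans (he.sum_le x)

/-- The averaged test expression. -/
noncomputable def psi (e : J → C(K, ℝ)) (b : J → ℝ) (Q : Bil C(K, ℝ)) : Bil C(K, ℝ) :=
  LinearMap.mk₂ ℝ (fun g h => -2 * Q (g * comb e b) h - 2 * Q g (h * comb e b) +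
      4 * ∑ η, b η * Q (g * e η) (h * e η))
    (by intros; simp [add_mul, mul_add, Finset.sum_add_distrib]; ring)
    (by intros; simp [mul_add, mul_sub, Finset.mul_sum, mul_left_comm])
    (by intros; simp [add_mul, mul_add, Finset.sum_add_distrib]; ring)
    (by intros; simp [mul_add, mul_sub, Finset.mul_sum, mul_left_comm])

lemma psi_apply (e : J → C(K, ℝ)) (b : J → ℝ) (Q : Bil C(K, ℝ)) (g h : C(K, ℝ)) :
    psi e b Q g h = -2 * Q (g * comb e b) h - 2 * Q g (h * comb e b) +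
      4 * ∑ η, b η * Q (g * e η) (h * e η) := rfl

lemma psi_add (e : J → C(K, ℝ)) (b : J → ℝ) (Q Q' : Bil C(K, ℝ)) (g h : C(K, ℝ)) :
    psi e b (Q + Q') g h = psi e b Q g h + psi e b Q' g h := by
  simp only [psi_apply, LinearMap.add_apply, mul_add, Finset.sum_add_distrib]
  ring

lemma sum_cut (e : J → C(K, ℝ)) (b : J → ℝ) (Q : Bil C(K, ℝ)) (g h : C(K, ℝ)) :
    ∑ η, b η * Q (g - (2 : ℝ) • (g * e η)) (h - (2 : ℝ) • (h * e η)) =
      (∑ η, b η) * Q g h + psi e b Q g h := by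
  rw [psi_apply, comb_def]
  simp only [Finset.mul_sum, Finset.sum_mul, map_sum, LinearMap.sum_apply, mul_smul_comm, map_smul,
    map_sub, LinearMap.sub_apply, LinearMap.smul_apply, smul_eq_mul, ← Finset.sum_add_distrib,
    ← Finset.sum_sub_distrib]
  exact Finset.sum_congr rfl fun η _ => by ring

variable [CompactSpace K]

lemma IsCut.norm_mul_le {e : J → C(K, ℝ)} (he : IsCut e) {b : J → ℝ} (hb : ∀ η, |b η| ≤ 1)
    (g : C(K, ℝ)) : ‖g * comb e b‖ ≤ ‖g‖ := by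
  refine (ContinuousMap.norm_le _ (norm_nonneg _)).2 fun x => ?_
  rw [ContinuousMap.mul_apply, norm_mul]
  exact (mul_le_of_le_one_right (norm_nonneg _) (he.abs_comb_le zero_le_one hb x)).trans
    (g.norm_coe_le_norm x)

lemma IsCut.norm_flip_le {e : J → C(K, ℝ)} (he : IsCut e) (η : J) {g : C(K, ℝ)} (hg : ‖g‖ ≤ 1) :
    ‖g - (2 : ℝ) • (g * e η)‖ ≤ 1 := by
  refine (ContinuousMap.norm_le _ zero_le_one).2 fun x => ?_
  have h1 := (g.norm_coe_le_norm x).trans hg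
  have e1 : (g - (2 : ℝ) • (g * e η)) x = g x * (1 - 2 * e η x) := by simp; ring
  rw [e1, norm_mul]
  exact mul_le_one₀ h1 (norm_nonneg _)
    (abs_le.2 ⟨by linarith [he.le_one η x], by linarith [he.nonneg η x]⟩)

lemma BddB.psi {e : J → C(K, ℝ)} (he : IsCut e) {b : J → ℝ} (hb : ∀ η, |b η| ≤ 1)
    {Q : Bil C(K, ℝ)} {c : ℝ} (hQ : BddB Q c) (hc : 0 ≤ c) : BddB (psi e b Q) (8 * c) := by
  classical
  intro g h
  have key : ∑ η, b η * Q (g * e η) (h * e η) =
      𝔼 ε : J → ZMod 2, Q (g * comb e (fun η => sg (ε η) * b η)) (h * comb e (fun η => sg (ε η))) := by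
    have : ∀ ε : J → ZMod 2,
        Q (g * comb e (fun η => sg (ε η) * b η)) (h * comb e (fun η => sg (ε η))) =
        ∑ η, ∑ η', (W {η'} ε * W {η} ε) * (b η' * Q (g * e η') (h * e η)) := by
      intro ε
      simp only [comb_def, Finset.mul_sum, map_sum, LinearMap.sum_apply, mul_smul_comm, map_smul,
        LinearMap.smul_apply, smul_eq_mul, W, Finset.prod_singleton]
      refine Finset.sum_congr rfl fun η _ => Finset.sum_congr rfl fun η' _ => by ring
    simp_rw [this, Finset.expect_sum_comm, ← Finset.expect_mul, W_orth]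
    simp
  have h3 : |∑ η, b η * Q (g * e η) (h * e η)| ≤ c * ‖g‖ * ‖h‖ := by
    rw [key]
    refine (Finset.abs_expect_le _ _).trans (Finset.expect_le Finset.univ_nonempty fun ε _ => ?_)
    exact hQ.le_mul hc (he.norm_mul_le (fun η => by rw [abs_mul, abs_sg, one_mul]; exact hb η) g)
      (he.norm_mul_le (fun η => (abs_sg _).le) h)
  have h1 := abs_le.1 (hQ.le_mul hc (he.norm_mul_le hb g) (le_refl ‖h‖))
  have h2 := abs_le.1 (hQ.le_mul hc (le_refl ‖g‖) (he.norm_mul_le hb h))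
  have h4 := abs_le.1 h3
  rw [psi_apply]
  exact abs_le.2 ⟨by linarith [h1.1, h1.2, h2.1, h2.2, h4.1, h4.2],
    by linarith [h1.1, h1.2, h2.1, h2.2, h4.1, h4.2]⟩

/-- Bumps attached to a finite family of pairwise disjoint closed sets. -/
lemma exists_cut [T2Space K] [DecidableEq J] (s : J → Set K) (hs : ∀ j, IsClosed (s j))
    (hd : ∀ j j' x, x ∈ s j → x ∈ s j' → j = j') :
    ∃ e : J → C(K, ℝ), IsCut e ∧ ∀ j j' x, x ∈ s j' → e j x = if j' = j then 1 else 0 := by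
  obtain ⟨f, hf⟩ := PartitionOfUnity.exists_isSubordinate (s := ⋃ j, s j)
    (isClosed_iUnion_of_finite hs) (fun j => (⋃ j' : {j' : J // j' ≠ j}, s j'.1)ᶜ)
    (fun j => (isClosed_iUnion_of_finite fun j' => hs _).isOpen_compl) (by
      intro x hx
      obtain ⟨j, hj⟩ := Set.mem_iUnion.1 hx
      refine Set.mem_iUnion.2 ⟨j, fun h => ?_⟩
      obtain ⟨j', hj'⟩ := Set.mem_iUnion.1 h
      exact j'.2 (hd _ _ x hj' hj))
  have h0 : ∀ j j' x, x ∈ s j' → j' ≠ j → f j x = 0 := by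
    intro j j' x hx hne
    by_contra h
    exact hf j (subset_tsupport _ h) (Set.mem_iUnion.2 ⟨⟨j', hne⟩, hx⟩)
  refine ⟨fun j => f j, ⟨f.nonneg, fun x => ?_⟩, fun j j' x hx => ?_⟩
  · simpa [finsum_eq_sum_of_fintype] using f.sum_le_one x
  · split_ifs with h
    · subst h
      have := f.sum_eq_one (x := x) (Set.mem_iUnion.2 ⟨j', hx⟩)
      rwa [finsum_eq_single _ j' fun j hj => h0 j j' x hx hj.symm] at this
    · exact h0 j j' x hx h

end

end Pool.Agent.MP_ce1e3b_an.Cl
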