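import Pool.Agent.MP_ce1e3b_an.Final
import Pool.Agent.MP_ce1e3b_an.Cl.Cut

/-! The bilinear forms attached to bounded families of block values. -/

open Finset Filter
open scoped BigOperators

namespace Pool.Agent.MP_ce1e3b_an.Cl

variable {β : ℕ → ℝ}

/-- Bounded families of block values. -/
def Fam (G : ∀ n, Gadget (β n)) : Submodule ℝ (∀ n, Fin (G n).M → ℝ) where
  carrier := {φ | ∃ c : ℝ, 0 < c ∧ ∀ n l, |φ n l| ≤ c}
  add_mem' := by
    rintro φ ψ ⟨c, hc, h⟩ ⟨d, hd, h'⟩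
    exact ⟨c + d, by positivity, fun n l => (abs_add_le _ _).trans (add_le_add (h n l) (h' n l))⟩
  zero_mem' := ⟨1, one_pos, by simp⟩
  smul_mem' := by
    rintro a φ ⟨c, hc, h⟩
    refine ⟨(|a| + 1) * c, by positivity, fun n l => ?_⟩
    rw [Pi.smul_apply, Pi.smul_apply, smul_eq_mul, abs_mul]
    exact mul_le_mul (by linarith) (h n l) (abs_nonneg _) (by positivity)

variable {G : ∀ n, Gadget (β n)}

/-- A family concentrated on one level. -/
noncomputable def sing (n : ℕ) (ψ : Fin (G n).M → ℝ) : Fam G :=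
  ⟨Pi.single n ψ, ‖ψ‖ + 1, by positivity, fun n' l => by
    by_cases h : n' = n
    · subst h
      rw [Pi.single_eq_same]
      linarith [norm_le_pi_norm ψ l, Real.norm_eq_abs (ψ l)]
    · rw [Pi.single_eq_of_ne h]
      simp only [Pi.zero_apply, abs_zero]
      positivity⟩

lemma sing_same (n : ℕ) (ψ : Fin (G n).M → ℝ) : (sing n ψ : Fam G).1 n = ψ := by
  simp only [sing, Pi.single_eq_same]

lemma sing_ne {n n' : ℕ} (h : n' ≠ n) (ψ : Fin (G n).M → ℝ) : (sing n ψ : Fam G).1 n' = 0 := by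
  simp only [sing, Pi.single_eq_of_ne h]

variable {L : Type} [TopologicalSpace L] [CompactSpace L] (S : Setup L β G)

/-- The form of level `n` with prescribed block values. -/
noncomputable def lev (n : ℕ) : (Fin (G n).M → ℝ) →ₗ[ℝ] Bil C(L, ℝ) := (S.T n).comp (S.blk n)

lemma lev_def (n : ℕ) (ψ : Fin (G n).M → ℝ) : lev S n ψ = S.T n (S.blk n ψ) := rfl

lemma op_blk (n : ℕ) (ψ : Fin (G n).M → ℝ) (η : (G n).J) :
    S.op n (S.blk n ψ) η = ∑ l, (G n).α η l * ψ l := by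
  simp only [Setup.op_apply, S.blk_p]

/-- The bumps on the model space. -/
noncomputable def eL (n : ℕ) (η : (G n).J) : C(L, ℝ) := lift (S.π n) (Pi.single η 1)

lemma comb_eL (n : ℕ) (b : (G n).J → ℝ) : comb (eL S n) b = lift (S.π n) b :=
  (lift_eq_sum (S.π n) b).symm

lemma isCut_eL (n : ℕ) : IsCut (eL S n) :=
  ⟨fun η x => by simp only [eL, lift_apply, Pi.single_apply]; split_ifs <;> norm_num,
    fun x => by simp [eL, Pi.single_apply]⟩

variable (hβ : ∀ s : Finset ℕ, ∑ n ∈ s, β n ≤ 1 / 1000)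
include hβ

lemma sum_abs_lev_le (s : Finset ℕ) {φ : ∀ n, Fin (G n).M → ℝ} {c : ℝ} (hc : 0 < c)
    (hφ : ∀ n l, |φ n l| ≤ c) {g h : C(L, ℝ)} (hg : ‖g‖ ≤ 1) (hh : ‖h‖ ≤ 1) :
    ∑ n ∈ s, |lev S n (φ n) g h| ≤ c * (1 - |S.E g * S.E h| + 4 / 1000) := by
  have h1 := S.bessel_dev s g
  have h2 := S.bessel_dev s h
  have h3 : ‖g‖ ^ 2 ≤ 1 := pow_le_one₀ (norm_nonneg _) hg
  have h4 : ‖h‖ ^ 2 ≤ 1 := pow_le_one₀ (norm_nonneg _) hh
  have h5 : |S.E g * S.E h| ≤ (S.E g ^ 2 + S.E h ^ 2) / 2 := by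
    refine abs_le.2 ⟨?_, ?_⟩
    · nlinarith [sq_nonneg (S.E g + S.E h)]
    · nlinarith [sq_nonneg (S.E g - S.E h)]
  have hn : ∀ n, ‖S.blk n (c⁻¹ • φ n)‖ ≤ 1 := fun n =>
    (ContinuousMap.norm_le _ zero_le_one).2 fun x => S.blk_le n _ 1 zero_le_one (fun l => by
      rw [Pi.smul_apply, smul_eq_mul, abs_mul, abs_of_pos (inv_pos.2 hc), inv_mul_le_iff₀ hc,
        mul_one]
      exact hφ n l) x
  have h6 := Finset.sum_le_sum fun n (_ : n ∈ s) => S.abs_T_le n (hn n) hg hh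
  rw [Finset.sum_add_distrib, ← Finset.sum_div, Finset.sum_add_distrib, ← Finset.mul_sum] at h6
  have h7 : ∀ n, |lev S n (φ n) g h| = c * |S.T n (S.blk n (c⁻¹ • φ n)) g h| := by
    intro n
    simp only [map_smul, LinearMap.smul_apply, smul_eq_mul, abs_mul, abs_of_pos (inv_pos.2 hc),
      lev_def]
    rw [← mul_assoc, mul_inv_cancel₀ hc.ne', one_mul]
  simp only [h7]
  rw [← Finset.mul_sum]
  exact mul_le_mul_of_nonneg_left (by linarith [hβ s]) hc.le

lemma summable_lev (φ : Fam G) (g h : C(L, ℝ)) : Summable fun n => lev S n (φ.1 n) g h := by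
  obtain ⟨c, hc, hφ⟩ := φ.2
  obtain ⟨v, hv, hy⟩ := exists_unit g
  obtain ⟨w, hw, hz⟩ := exists_unit h
  have h1 : Summable fun n => lev S n (φ.1 n) v w :=
    Summable.of_abs (summable_of_sum_le (fun n => abs_nonneg _) fun s =>
      sum_abs_lev_le S hβ s hc hφ hv hw)
  refine (h1.mul_left (‖g‖ * ‖h‖)).congr fun n => ?_
  conv_rhs => rw [hy, hz]
  simp only [map_smul, LinearMap.smul_apply, smul_eq_mul]
  ring

/-- The sum of the forms of all levels. -/
noncomputable def U : Fam G →ₗ[ℝ] Bil C(L, ℝ) where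
  toFun φ := LinearMap.mk₂ ℝ (fun g h => ∑' n, lev S n (φ.1 n) g h)
    (by
      intro y y' z
      simp only [map_add, LinearMap.add_apply]
      exact (summable_lev S hβ φ y z).tsum_add (summable_lev S hβ φ y' z))
    (by intro c y z; simp only [map_smul, LinearMap.smul_apply, smul_eq_mul, tsum_mul_left])
    (by
      intro y z z'
      simp only [map_add]
      exact (summable_lev S hβ φ y z).tsum_add (summable_lev S hβ φ y z'))
    (by intro c y z; simp only [map_smul, smul_eq_mul, tsum_mul_left])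
  map_add' φ ψ := by
    ext y z
    simp only [LinearMap.mk₂_apply, Submodule.coe_add, Pi.add_apply, map_add, LinearMap.add_apply]
    exact (summable_lev S hβ φ y z).tsum_add (summable_lev S hβ ψ y z)
  map_smul' c φ := by
    ext y z
    simp only [LinearMap.mk₂_apply, Submodule.coe_smul, Pi.smul_apply, map_smul,
      LinearMap.smul_apply, smul_eq_mul, tsum_mul_left, RingHom.id_apply]

lemma U_apply (φ : Fam G) (g h : C(L, ℝ)) : U S hβ φ g h = ∑' n, lev S n (φ.1 n) g h := rfl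

lemma abs_U_le {φ : Fam G} {c : ℝ} (hc : 0 < c) (hφ : ∀ n l, |φ.1 n l| ≤ c) {g h : C(L, ℝ)}
    (hg : ‖g‖ ≤ 1) (hh : ‖h‖ ≤ 1) :
    |U S hβ φ g h| ≤ c * (1 - |S.E g * S.E h| + 4 / 1000) := by
  have h1 := (summable_lev S hβ φ g h).abs
  calc _ ≤ ∑' n, |lev S n (φ.1 n) g h| := by
        simpa [Real.norm_eq_abs, U_apply] using
          norm_tsum_le_tsum_norm (f := fun n => lev S n (φ.1 n) g h)
          (by simpa [Real.norm_eq_abs] using h1)
    _ ≤ _ := h1.tsum_le_of_sum_le fun s => sum_abs_lev_le S hβ s hc hφ hg hh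

lemma U_sing (n : ℕ) (ψ : Fin (G n).M → ℝ) (g h : C(L, ℝ)) :
    U S hβ (sing n ψ) g h = S.T n (S.blk n ψ) g h := by
  rw [U_apply, tsum_eq_single n, sing_same, lev_def]
  intro n' hn'
  simp [sing_ne hn']

/-- The bilinear form attached to a scalar and a family. -/
noncomputable def Q : (ℝ × Fam G) →ₗ[ℝ] Bil C(L, ℝ) :=
  (LinearMap.toSpanSingleton ℝ _ ((LinearMap.mul ℝ ℝ).compl₁₂ S.E S.E)).coprod
    ((1 / 2 : ℝ) • U S hβ)

lemma Q_apply (c : ℝ) (φ : Fam G) (g h : C(L, ℝ)) :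
    Q S hβ (c, φ) g h = c * (S.E g * S.E h) + 1 / 2 * U S hβ φ g h := by
  simp [Q]

lemma bdd_Q {c : ℝ} (hc : |c| ≤ 1) {φ : Fam G} (hφ : ∀ n l, |φ.1 n l| ≤ 1) :
    BddB (Q S hβ (c, φ)) (1002 / 1000) := by
  refine bddB_of_unit _ _ fun g h hg hh => ?_
  rw [Q_apply]
  have h1 := abs_U_le S hβ one_pos hφ hg hh
  have h2 : |c * (S.E g * S.E h)| ≤ |S.E g * S.E h| := by
    rw [abs_mul]
    exact mul_le_of_le_one_left (abs_nonneg _) hc
  have h3 : |S.E g * S.E h| ≤ 1 := by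
    rw [abs_mul]
    exact mul_le_one₀ ((S.abs_E_le g).trans hg) (abs_nonneg _) ((S.abs_E_le h).trans hh)
  refine (abs_add_le _ _).trans ?_
  rw [abs_mul (1 / 2 : ℝ), abs_of_pos (by norm_num : (0 : ℝ) < 1 / 2)]
  linarith

lemma bdd_Q_small {φ : Fam G} (hφ : ∀ n l, |φ.1 n l| ≤ 1 / 1000) :
    BddB (Q S hβ (0, φ)) (1 / 1000) := by
  refine bddB_of_unit _ _ fun g h hg hh => ?_
  rw [Q_apply, zero_mul, zero_add, abs_mul, abs_of_pos (by norm_num : (0 : ℝ) < 1 / 2)]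
  have h1 := abs_U_le S hβ (by norm_num) hφ hg hh
  linarith [abs_nonneg (S.E g * S.E h)]

lemma near_max {c : ℝ} (hc : |c| ≤ 1) {φ : Fam G} (hφ : ∀ n l, |φ.1 n l| ≤ 1) {g h : C(L, ℝ)}
    (hg : ‖g‖ ≤ 1) (hh : ‖h‖ ≤ 1) (hA : 1 - 2 / 1000 ≤ Q S hβ (c, φ) g h) :
    992 / 1000 ≤ |S.E g * S.E h| ∧ 1 / 2 < |c| := by
  rw [Q_apply] at hA
  have h1 := (abs_le.1 (abs_U_le S hβ one_pos hφ hg hh)).2
  have h2 : c * (S.E g * S.E h) ≤ |c| * |S.E g * S.E h| := by
    rw [← abs_mul]; exact le_abs_self _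
  have h3 : |S.E g * S.E h| ≤ 1 := by
    rw [abs_mul]
    exact mul_le_one₀ ((S.abs_E_le g).trans hg) (abs_nonneg _) ((S.abs_E_le h).trans hh)
  have h5 := abs_nonneg c
  have h6 := abs_nonneg (S.E g * S.E h)
  have h7 : 992 / 1000 ≤ |S.E g * S.E h| := by nlinarith
  exact ⟨h7, by nlinarith⟩

lemma Q_cut {n : ℕ} (c : ℝ) {φ : Fam G} (hφ : φ.1 n = 0) {g h : C(L, ℝ)} (hg : S.Inv n g)
    (hh : S.Inv n h) (η : (G n).J) :
    Q S hβ (c, φ) (g * eL S n η) (h * eL S n η) =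
      (1 / Setup.m G n) ^ 2 * Q S hβ (c, φ) g h := by
  have e : 𝔼 η', (Pi.single η (1 : ℝ) : (G n).J → ℝ) η' = 1 / Setup.m G n := by
    simpa using Setup.expect_mul_single n 1 η
  have key : ∀ n', lev S n' (φ.1 n') (g * eL S n η) (h * eL S n η) =
      (1 / Setup.m G n) ^ 2 * lev S n' (φ.1 n') g h := by
    intro n'
    by_cases hn : n' = n
    · subst hn
      simp [hφ]
    · rw [lev_def, S.T_apply, S.T_apply, eL, S.dev_mul_lift_ne hn hg, S.dev_mul_lift_ne hn hh, e,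
        Finset.mul_expect]
      refine Finset.expect_congr rfl fun η' _ => ?_
      simp only [Pi.smul_apply, smul_eq_mul]; ring
  rw [Q_apply, Q_apply, U_apply, U_apply]
  simp only [key, tsum_mul_left]
  rw [eL, S.E_mul_lift hg, S.E_mul_lift hh, e]
  ring

lemma psi_one_ge {n : ℕ} {c : ℝ} (hc : |c| ≤ 1) {φ : Fam G} (hφ : ∀ n l, |φ.1 n l| ≤ 1)
    (hs : ∀ l, |φ.1 n l| ≤ 1 / 1000) {g h : C(L, ℝ)} (hg : ‖g‖ ≤ 1) (hh : ‖h‖ ≤ 1)
    (hgi : S.Inv n g) (hhi : S.Inv n h) :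
    -(403 / 100) ≤ psi (eL S n) 1 (Q S hβ (c, φ)) g h := by
  have h0 := Setup.m_ge (G := G) n
  set φ0 : Fam G := φ - sing n (φ.1 n) with hφ0
  have z0 : φ0.1 n = 0 := by simp [hφ0, sing_same]
  have z1 : ∀ n' l, |φ0.1 n' l| ≤ 1 := by
    intro n' l
    by_cases hn : n' = n
    · subst hn; simp [z0]
    · simpa [hφ0, sing_ne hn] using hφ n' l
  have z2 : ∀ n' l, |(sing n (φ.1 n) : Fam G).1 n' l| ≤ 1 / 1000 := by
    intro n' l
    by_cases hn : n' = n
    · subst hn; rw [sing_same]; exact hs l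
    · simp [sing_ne hn]
  have e1 : Q S hβ (c, φ) = Q S hβ (c, φ0) + Q S hβ (0, sing n (φ.1 n)) := by
    rw [← map_add]; simp [hφ0]
  have e2 := (abs_le.1 (((bdd_Q_small S hβ z2).psi (isCut_eL S n) (b := 1) (by simp)
    (by norm_num)).le_mul (by norm_num) hg hh)).1
  have e3 : psi (eL S n) 1 (Q S hβ (c, φ0)) g h =
      -4 * ((1 - 1 / Setup.m G n) * Q S hβ (c, φ0) g h) := by
    rw [psi_apply, comb_eL, lift_one, mul_one, mul_one]
    simp only [Pi.one_apply, one_mul, Q_cut S hβ c z0 hgi hhi]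
    rw [Finset.sum_const, Finset.card_univ, nsmul_eq_mul]
    change _ + 4 * (Setup.m G n * _) = _
    field_simp
    ring
  have e4 := (bdd_Q S hβ hc z1).le_mul (by norm_num) hg hh
  have e5 : |(1 - 1 / Setup.m G n) * Q S hβ (c, φ0) g h| ≤ |Q S hβ (c, φ0) g h| := by
    rw [abs_mul]
    refine mul_le_of_le_one_left (abs_nonneg _) (abs_le.2 ⟨?_, ?_⟩)
    · have : 1 / Setup.m G n ≤ 1 := by rw [div_le_one (by linarith)]; linarith
      linarith
    · have : 0 ≤ 1 / Setup.m G n := by positivity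
      linarith
  have e6 := (abs_le.1 (e5.trans e4)).2
  rw [e1, psi_add]
  linarith

lemma psi_gain {n : ℕ} (i : Fin (G n).d) {s : ℝ} {φ : Fam G}
    (h1 : ∀ l, |φ.1 n l - s * (G n).a i l| ≤ 1 / 1000)
    (h2 : ∀ n', n' ≠ n → ∀ l, |φ.1 n' l| ≤ 1 / 1000) {g h : C(L, ℝ)} (hg : ‖g‖ ≤ 1)
    (hh : ‖h‖ ≤ 1) (hgi : S.Inv n g) (hhi : S.Inv n h)
    (hE : 992 / 1000 ≤ s * (S.E g * S.E h)) :
    64 / 100 ≤ psi (eL S n) ((G n).b i) (Q S hβ (0, φ)) g h := by
  have h0 := Setup.m_ge (G := G) n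
  set φ1 : Fam G := sing n (s • (G n).a i) with hφ1
  have z2 : ∀ n' l, |(φ - φ1).1 n' l| ≤ 1 / 1000 := by
    intro n' l
    by_cases hn : n' = n
    · subst hn; simpa [hφ1, sing_same] using h1 l
    · simpa [hφ1, sing_ne hn] using h2 n' hn l
  have e1 : Q S hβ (0, φ) = Q S hβ (0, φ1) + Q S hβ (0, φ - φ1) := by
    rw [← map_add]; simp
  have e2 := (abs_le.1 (((bdd_Q_small S hβ z2).psi (isCut_eL S n) ((G n).hb i)
    (by norm_num)).le_mul (by norm_num) hg hh)).1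
  have hQ : ∀ y z, Q S hβ (0, φ1) y z = 1 / 2 * S.T n (S.blk n (s • (G n).a i)) y z := by
    intro y z
    rw [Q_apply, zero_mul, zero_add, hφ1, U_sing]
  have e3 : ∀ η, (G n).b i η * Q S hβ (0, φ1) (g * eL S n η) (h * eL S n η) =
      1 / 2 * S.T n (S.blk n (s • (G n).a i))
        (g * lift (S.π n) ((G n).b i) * lift (S.π n) (Pi.single η 1))
        (h * lift (S.π n) (Pi.single η 1)) := by
    intro η
    have : g * lift (S.π n) ((G n).b i) * lift (S.π n) (Pi.single η 1) =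
        (G n).b i η • (g * eL S n η) := by
      ext x
      by_cases hx : S.π n x = η
      · simp [hx, eL, mul_comm]
      · simp [hx, eL]
    rw [this, hQ, map_smul (S.T n _), LinearMap.smul_apply, smul_eq_mul, eL]
    ring
  have e4 : psi (eL S n) ((G n).b i) (Q S hβ (0, φ1)) g h = 2 * (s * (S.E g * S.E h) *
      ((1 - 2 / Setup.m G n) * 𝔼 η, (∑ l, (G n).α η l * (G n).a i l) * (G n).b i η)) := by
    rw [psi_apply]
    simp only [e3]
    rw [← Finset.mul_sum, S.diag_T _ hgi hhi _ ((G n).hb0 i), hQ, hQ, S.T_apply, S.T_apply,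
      S.dev_inv hgi, S.dev_inv hhi]
    simp only [Pi.zero_apply, mul_zero, zero_mul, Finset.expect_const_zero, op_blk, Pi.smul_apply,
      smul_eq_mul]
    have : 𝔼 η, (∑ l, (G n).α η l * (s * (G n).a i l)) * (G n).b i η =
        s * 𝔼 η, (∑ l, (G n).α η l * (G n).a i l) * (G n).b i η := by
      rw [Finset.mul_expect]
      refine Finset.expect_congr rfl fun η _ => ?_
      simp only [Finset.mul_sum, Finset.sum_mul]
      exact Finset.sum_congr rfl fun l _ => by ring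
    rw [this]
    ring
  have e5 := (G n).hgain i
  have e6 : 7 / 8 ≤ 1 - 2 / Setup.m G n := by
    have : 2 / Setup.m G n ≤ 1 / 8 := by rw [div_le_iff₀ (by linarith)]; linarith
    linarith
  have e7 := mul_le_mul hE (mul_le_mul e6 e5 (by norm_num) (by linarith)) (by norm_num)
    (by linarith)
  rw [e1, psi_add, e4]
  linarith

end Pool.Agent.MP_ce1e3b_an.Cl
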