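import Mathlib.Analysis.Normed.Module.PiTensorProduct.ProjectiveSeminorm
import Mathlib.RingTheory.PiTensorProduct
import Mathlib.Topology.Separation.DisjointCover
import Mathlib.Topology.ContinuousMap.Compact
import Mathlib.Topology.ContinuousMap.Algebra
import Mathlib.Analysis.Normed.Operator.Mul
import Pool.Agent.MP_ce1e3b_an.Cl.Core

/-! Density of norm attaining multilinear forms for totally disconnected compact spaces. -/

open scoped TensorProduct
open PiTensorProduct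

namespace Pool.Agent.MP_ce1e3b_an.Cl

section
variable {ι : Type*} [Fintype ι] {R : Type*} [NormedCommRing R] [NormedAlgebra ℝ R]

lemma lin_le {G : Type*} [SeminormedAddCommGroup G] [NormedSpace ℝ G]
    (L : (⨂[ℝ] _ : ι, R) →ₗ[ℝ] G) {c : ℝ} (hc : 0 ≤ c)
    (h : ∀ m : ι → R, ‖L (tprod ℝ m)‖ ≤ c * ∏ i, ‖m i‖) (x : ⨂[ℝ] _ : ι, R) :
    ‖L x‖ ≤ c * ‖x‖ := by
  let f := (L.compMultilinearMap (tprod ℝ)).mkContinuous c h
  have h1 : lift f.toMultilinearMap = L := by
    ext m; simp [f]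
  have h2 := norm_eval_le_projectiveSeminorm f x
  rw [h1] at h2
  exact h2.trans (mul_le_mul_of_nonneg_right (MultilinearMap.mkContinuous_norm_le _ hc _)
    (norm_nonneg _))

lemma norm_mul_tens (x y : ⨂[ℝ] _ : ι, R) : ‖x * y‖ ≤ ‖x‖ * ‖y‖ := by
  refine lin_le (PiTensorProduct.mul x) (norm_nonneg x) (fun m => ?_) y
  rw [mul_comm]
  refine lin_le (PiTensorProduct.mul.flip (tprod ℝ m)) (by positivity) (fun m' => ?_) x
  rw [LinearMap.flip_apply, mul_tprod_tprod]
  refine (projectiveSeminorm_tprod_le _).trans ?_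
  rw [← Finset.prod_mul_distrib]
  exact Finset.prod_le_prod (fun _ _ => norm_nonneg _) fun i _ => by
    rw [mul_comm]; exact norm_mul_le _ _

lemma exists_attain_one (h1 : ‖(1 : R)‖ ≤ 1) (A : ContinuousMultilinearMap ℝ (fun _ : ι => R) ℝ)
    (hA : ‖A‖ ≤ 1) {t : ℝ} (ht : 0 < t) (ht1 : t < 1) (hA1 : 1 - t ^ 2 ≤ A 1) :
    ∃ B : ContinuousMultilinearMap ℝ (fun _ : ι => R) ℝ, ‖B‖ ≤ 1 ∧ B 1 = 1 ∧ ‖A - B‖ ≤ 3 * t := by
  have hA' : ∀ z : ⨂[ℝ] _ : ι, R, lift A.toMultilinearMap z ≤ ‖z‖ := fun z =>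
    (le_abs_self _).trans ((norm_eval_le_projectiveSeminorm A z).trans
      (mul_le_of_le_one_left (norm_nonneg _) hA))
  have hA1' : 1 - t ^ 2 ≤ lift A.toMultilinearMap (1 : ⨂[ℝ] _ : ι, R) := by
    rw [one_def, lift.tprod]; exact hA1
  have hq : AlgSemi (fun z : ⨂[ℝ] _ : ι, R => ‖z‖) := by
    refine ⟨fun x y => norm_add_le x y, fun c x => norm_smul c x, norm_mul_tens, ?_⟩
    have e1 : ‖(1 : ⨂[ℝ] _ : ι, R)‖ ≤ 1 :=
      (projectiveSeminorm_tprod_le (fun _ : ι => (1 : R))).trans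
        (Finset.prod_le_one (fun _ _ => norm_nonneg _) fun _ _ => h1)
    have e2 := norm_mul_tens (1 : ⨂[ℝ] _ : ι, R) 1
    rw [mul_one] at e2
    have e3 := hA1'.trans (hA' 1)
    have e4 : 0 < ‖(1 : ⨂[ℝ] _ : ι, R)‖ := by nlinarith
    exact le_antisymm e1 (by nlinarith)
  obtain ⟨B, b1, b2, b3⟩ := hq.exists_state (lift A.toMultilinearMap) hA' ht ht1.le hA1'
  have hb : ∀ m : ι → R, ‖(B.compMultilinearMap (tprod ℝ)) m‖ ≤ 1 * ∏ i, ‖m i‖ := fun m => by
    rw [one_mul]
    exact (b1 _).trans (projectiveSeminorm_tprod_le m)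
  refine ⟨(B.compMultilinearMap (tprod ℝ)).mkContinuous 1 hb,
    MultilinearMap.mkContinuous_norm_le _ zero_le_one _, b2, ?_⟩
  refine ContinuousMultilinearMap.opNorm_le_bound (by positivity) fun m => ?_
  have := b3 (tprod ℝ m)
  rw [lift.tprod] at this
  exact this.trans (mul_le_mul_of_nonneg_left (projectiveSeminorm_tprod_le m) (by positivity))

/-- Composition with multiplication by a family of elements. -/
noncomputable def twist (u : ι → R) (A : ContinuousMultilinearMap ℝ (fun _ : ι => R) ℝ) :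
    ContinuousMultilinearMap ℝ (fun _ : ι => R) ℝ :=
  A.compContinuousLinearMap fun i => ContinuousLinearMap.mul ℝ R (u i)

omit [Fintype ι] in
lemma twist_apply (u : ι → R) (A : ContinuousMultilinearMap ℝ (fun _ : ι => R) ℝ) (m : ι → R) :
    twist u A m = A (u * m) := rfl

lemma norm_twist_le {u : ι → R} (hu : ∀ i, ‖u i‖ ≤ 1)
    (A : ContinuousMultilinearMap ℝ (fun _ : ι => R) ℝ) : ‖twist u A‖ ≤ ‖A‖ := by
  refine ContinuousMultilinearMap.opNorm_le_bound (norm_nonneg _) fun m => ?_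
  rw [twist_apply]
  refine (A.le_opNorm _).trans (mul_le_mul_of_nonneg_left ?_ (norm_nonneg _))
  exact Finset.prod_le_prod (fun _ _ => norm_nonneg _) fun i _ =>
    (norm_mul_le _ _).trans (mul_le_of_le_one_left (norm_nonneg _) (hu i))

lemma exists_attain_unit (h1 : ‖(1 : R)‖ ≤ 1) {u : ι → R} (hu : ∀ i, ‖u i‖ ≤ 1) (huu : u * u = 1)
    (A : ContinuousMultilinearMap ℝ (fun _ : ι => R) ℝ)
    (hA : ‖A‖ ≤ 1) {t : ℝ} (ht : 0 < t) (ht1 : t < 1) (hA1 : 1 - t ^ 2 ≤ A u) :
    ∃ B : ContinuousMultilinearMap ℝ (fun _ : ι => R) ℝ, ‖B‖ ≤ 1 ∧ B u = 1 ∧ ‖A - B‖ ≤ 3 * t := by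
  obtain ⟨B, b1, b2, b3⟩ := exists_attain_one h1 (twist u A) ((norm_twist_le hu A).trans hA) ht ht1
    (by rwa [twist_apply, mul_one])
  refine ⟨twist u B, (norm_twist_le hu B).trans b1, by rw [twist_apply, huu, b2], ?_⟩
  have : A - twist u B = twist u (twist u A - B) := by
    ext m
    simp [twist_apply, ← mul_assoc, huu]
  rw [this]
  exact (norm_twist_le hu _).trans b3

end

section
variable {E : Type*} [NormedAddCommGroup E] [NormedSpace ℝ E] {ι : Type*} [Fintype ι]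

lemma nsm (c : ℝ) (A : ContinuousMultilinearMap ℝ (fun _ : ι => E) ℝ) : ‖c • A‖ = |c| * ‖A‖ :=
  norm_smul c A

lemma dense_iff_norm (S : Set (ContinuousMultilinearMap ℝ (fun _ : ι => E) ℝ)) :
    Dense S ↔ ∀ A, ∀ ε > 0, ∃ B ∈ S, ‖A - B‖ < ε := by
  rw [(Metric.dense_iff (α := ContinuousMultilinearMap ℝ (fun _ : ι => E) ℝ))]
  refine forall_congr' fun A => forall_congr' fun ε => forall_congr' fun _ => ?_
  constructor
  · rintro ⟨B, h1, h2⟩
    exact ⟨B, h2, by rwa [Metric.mem_ball', dist_eq_norm A B] at h1⟩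
  · rintro ⟨B, h1, h2⟩
    exact ⟨B, by rwa [Metric.mem_ball', dist_eq_norm A B], h1⟩

end

section
variable {K : Type*} [TopologicalSpace K] [CompactSpace K] [T2Space K] [TotallyDisconnectedSpace K]

lemma exists_sign (φ : C(K, ℝ) →L[ℝ] ℝ) {f : C(K, ℝ)} (hf : ‖f‖ ≤ 1) {δ : ℝ} (hδ : 0 < δ) :
    ∃ u : C(K, ℝ), ‖u‖ ≤ 1 ∧ u * u = 1 ∧ φ f - δ ≤ φ u := by
  classical
  set η : ℝ := δ / (‖φ‖ + 1) with hη
  have hη0 : 0 < η := by positivity
  obtain ⟨n, g, h, hg, hgh⟩ := f.exists_finite_approximation_of_mem_nhds_diagonal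
    (S := {p : ℝ × ℝ | dist p.1 p.2 < η}) (by
      refine (isOpen_lt (by fun_prop) continuous_const).mem_nhdsSet.2 ?_
      rintro ⟨x, y⟩ (rfl : x = y)
      simpa using hη0)
  let L : (Fin n → ℝ) →ₗ[ℝ] C(K, ℝ) :=
    { toFun := fun ψ => ⟨fun x => ψ (g x), continuous_of_discreteTopology.comp hg⟩
      map_add' := fun _ _ => rfl
      map_smul' := fun _ _ => rfl }
  have hL : ∀ ψ x, L ψ x = ψ (g x) := fun _ _ => rfl
  let c : Fin n → ℝ := fun j => max (-1) (min 1 (h j))
  let s : Fin n → ℝ := fun j => if 0 ≤ φ (L (Pi.single j 1)) then 1 else -1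
  have hsum : ∀ ψ : Fin n → ℝ, φ (L ψ) = ∑ j, ψ j * φ (L (Pi.single j 1)) := by
    intro ψ
    conv_lhs => rw [← Finset.univ_sum_single ψ]
    rw [map_sum, map_sum]
    refine Finset.sum_congr rfl fun j _ => ?_
    rw [← smul_eq_mul, ← map_smul, ← map_smul, ← Pi.single_smul', smul_eq_mul, mul_one]
  refine ⟨L s, (ContinuousMap.norm_le _ zero_le_one).2 fun x => ?_, ?_, ?_⟩
  · rw [hL]; simp only [s]; split_ifs <;> simp
  · ext x
    rw [ContinuousMap.mul_apply, hL]; simp only [s]; split_ifs <;> simp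
  · have e1 : ‖f - L c‖ ≤ η := by
      refine (ContinuousMap.norm_le _ hη0.le).2 fun x => ?_
      have a1 := abs_lt.1 (show |f x - h (g x)| < η from hgh x)
      have a2 := abs_le.1 ((f.norm_coe_le_norm x).trans hf)
      rw [ContinuousMap.sub_apply, hL, Real.norm_eq_abs, abs_le]
      simp only [c, max_def, min_def]
      split_ifs <;> constructor <;> linarith [a1.1, a1.2, a2.1, a2.2]
    have e2 : φ (f - L c) ≤ δ := by
      refine (le_abs_self _).trans ((φ.le_of_opNorm_le_of_le le_rfl e1).trans ?_)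
      rw [hη, mul_div_assoc', div_le_iff₀ (by positivity)]
      nlinarith
    have e3 : φ (L c) ≤ φ (L s) := by
      rw [hsum c, hsum s]
      refine Finset.sum_le_sum fun j _ => ?_
      have a1 : -1 ≤ c j := le_max_left _ _
      have a2 : c j ≤ 1 := max_le (by norm_num) (min_le_left _ _)
      simp only [s]
      split_ifs with hj
      · nlinarith
      · nlinarith [not_le.1 hj]
    rw [map_sub] at e2
    linarith

variable {ι : Type*} [Fintype ι]

omit [Fintype ι] in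
lemma exists_signs (A : ContinuousMultilinearMap ℝ (fun _ : ι => C(K, ℝ)) ℝ) (s : Finset ι)
    {f : ι → C(K, ℝ)} (hf : ∀ i, ‖f i‖ ≤ 1) {δ : ℝ} (hδ : 0 < δ) :
    ∃ u : ι → C(K, ℝ), (∀ i, ‖u i‖ ≤ 1) ∧ (∀ i ∈ s, u i * u i = 1) ∧ A f - δ ≤ A u := by
  classical
  induction s using Finset.induction_on generalizing δ with
  | empty => exact ⟨f, hf, by simp, by linarith⟩
  | insert j s hj ih =>
    obtain ⟨u, h1, h2, h3⟩ := ih (half_pos hδ)
    obtain ⟨v, v1, v2, v3⟩ := exists_sign (A.toContinuousLinearMap u j) (h1 j) (half_pos hδ)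
    simp only [ContinuousMultilinearMap.toContinuousLinearMap_apply, Function.update_eq_self] at v3
    refine ⟨Function.update u j v, fun i => ?_, fun i hi => ?_, by linarith⟩
    · by_cases h : i = j
      · subst h; simpa using v1
      · simpa [h] using h1 i
    · by_cases h : i = j
      · subst h; simpa using v2
      · simpa [h] using h2 i (by simpa [h] using hi)

/-- Norm attaining multilinear forms are dense when the compact space is totally disconnected. -/
theorem dense_attaining [Nonempty ι] :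
    Dense {B : ContinuousMultilinearMap ℝ (fun _ : ι => C(K, ℝ)) ℝ |
      ∃ f : ι → C(K, ℝ), (∀ i, ‖f i‖ ≤ 1) ∧ |B f| = ‖B‖} := by
  classical
  refine (dense_iff_norm _).2 fun A ε hε => ?_
  rcases (norm_nonneg A).eq_or_lt with h0 | h0
  · refine ⟨A, ⟨0, by simp, ?_⟩, by rwa [sub_self, ContinuousMultilinearMap.opNorm_zero]⟩
    have := A.le_opNorm 0
    rw [← h0, zero_mul] at this
    rw [← h0]
    exact le_antisymm this (abs_nonneg _)
  set t : ℝ := min (1 / 2) (ε / (4 * ‖A‖)) with ht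
  have ht0 : 0 < t := by positivity
  have ht1 : t < 1 := (min_le_left _ _).trans_lt (by norm_num)
  have ht2 : t ≤ ε / (4 * ‖A‖) := min_le_right _ _
  set A1 := ‖A‖⁻¹ • A with hA1
  have n1 : ‖A1‖ = 1 := by rw [hA1, nsm, abs_inv, abs_of_pos h0, inv_mul_cancel₀ h0.ne']
  obtain ⟨f, hf, hAf⟩ : ∃ f : ι → C(K, ℝ), (∀ i, ‖f i‖ ≤ 1) ∧ 1 - t ^ 2 / 2 ≤ A1 f := by
    by_contra hcon
    push Not at hcon
    have hle : ‖A1‖ ≤ 1 - t ^ 2 / 2 := by
      refine ContinuousMultilinearMap.opNorm_le_bound (by nlinarith) fun m => ?_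
      by_cases hm : ∃ i, m i = 0
      · obtain ⟨i, hi⟩ := hm
        rw [A1.map_coord_zero i hi, norm_zero]
        exact mul_nonneg (by nlinarith) (by positivity)
      push Not at hm
      have hp : ∀ i, 0 < ‖m i‖ := fun i => norm_pos_iff.2 (hm i)
      let m' : ι → C(K, ℝ) := fun i => ‖m i‖⁻¹ • m i
      have hm' : ∀ i, ‖m' i‖ ≤ 1 := fun i => by
        simp only [m']
        rw [norm_smul, norm_inv, norm_norm, inv_mul_cancel₀ (hp i).ne']
      have e1 : A1 m = (∏ i, ‖m i‖) * A1 m' := by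
        rw [← smul_eq_mul, ← A1.map_smul_univ]
        congr 1
        ext1 i
        simp only [m']
        rw [smul_smul, mul_inv_cancel₀ (hp i).ne', one_smul]
      obtain ⟨j⟩ := ‹Nonempty ι›
      have e2 := hcon m' hm'
      have e3 := hcon (Function.update m' j (-m' j)) fun i => by
        by_cases h : i = j
        · subst h; simpa using hm' i
        · simpa [h] using hm' i
      have e4 : A1 (Function.update m' j (-m' j)) = -A1 m' := by
        have := A1.map_update_smul m' j (-1) (m' j)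
        simpa using this
      rw [e1, norm_mul, Real.norm_of_nonneg (by positivity), mul_comm]
      exact mul_le_mul_of_nonneg_right (abs_le.2 ⟨by linarith, e2.le⟩) (by positivity)
    nlinarith [pow_pos ht0 2]
  obtain ⟨u, u1, u2, u3⟩ := exists_signs A1 Finset.univ hf (δ := t ^ 2 / 2) (by positivity)
  obtain ⟨B, b1, b2, b3⟩ := exists_attain_unit
    ((ContinuousMap.norm_le (1 : C(K, ℝ)) zero_le_one).2 (by simp)) u1
    (funext fun i => u2 i (Finset.mem_univ i)) A1 n1.le ht0 ht1 (by linarith)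
  have b4 : ‖B‖ = 1 := by
    refine le_antisymm b1 ?_
    have := B.unit_le_opNorm ((pi_norm_le_iff_of_nonneg zero_le_one).2 u1)
    rwa [b2, norm_one] at this
  refine ⟨‖A‖ • B, ⟨u, u1, ?_⟩, ?_⟩
  · rw [nsm, b4, smul_apply, b2]
    simp
  · have e : A - ‖A‖ • B = ‖A‖ • (A1 - B) := by
      rw [smul_sub, hA1, smul_smul, mul_inv_cancel₀ h0.ne', one_smul]
    rw [e, nsm, abs_of_pos h0]
    rw [le_div_iff₀ (by positivity)] at ht2
    nlinarith

end

end Pool.Agent.MP_ce1e3b_an.Cl
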