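import Mathlib.Topology.Metrizable.Basic
import Pool.Agent.MP_ce1e3b_an.Cl.Blocks
import Pool.Agent.MP_ce1e3b_an.Cl.Pos

/-! The classification of compact metrizable spaces. -/

namespace Pool.Agent.MP_ce1e3b_an.Cl

theorem not_dense_of_emb {β : ℕ → ℝ} {G : ∀ n, Gadget (β n)} {L : Type} [TopologicalSpace L]
    [CompactSpace L] {S : Setup L β G} {K : Type*} [TopologicalSpace K] [CompactSpace K]
    (Z : Emb S K) (hβ : ∀ s : Finset ℕ, ∑ n ∈ s, β n ≤ 1 / 1000) :
    ¬ Dense {B : ContinuousMultilinearMap ℝ (fun _ : Fin 3 => C(K, ℝ)) ℝ |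
      ∃ f : Fin 3 → C(K, ℝ), (∀ i, ‖f i‖ ≤ 1) ∧ |B f| = ‖B‖} := by
  let A0 : MultilinearMap ℝ (fun _ : Fin 3 => C(K, ℝ)) ℝ :=
    { toFun := fun m => Z.A hβ (m 0) (m 1) (m 2)
      map_update_add' := by
        intro inst m i x y
        obtain rfl : inst = instDecidableEqFin 3 := Subsingleton.elim _ _
        fin_cases i <;> simp
      map_update_smul' := by
        intro inst m i c x
        obtain rfl : inst = instDecidableEqFin 3 := Subsingleton.elim _ _
        fin_cases i <;> simp }
  let A : ContinuousMultilinearMap ℝ (fun _ : Fin 3 => C(K, ℝ)) ℝ :=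
    A0.mkContinuous (1002 / 1000) fun m => by
      rw [Fin.prod_univ_three, ← mul_assoc, ← mul_assoc]
      exact Z.bdd_A hβ _ _ _
  have hA : ∀ x y z, A ![x, y, z] = Z.A hβ x y z := fun _ _ _ => rfl
  intro hd
  obtain ⟨B, ⟨f, hf, hfB⟩, hB1⟩ := (dense_iff_norm _).1 hd A (1 / 1000) (by norm_num)
  have u0 : ∀ x x' y z : C(K, ℝ), Function.update ![x, y, z] 0 x' = ![x', y, z] := by
    intro x x' y z; ext1 i; fin_cases i <;> simp
  have u1 : ∀ x y y' z : C(K, ℝ), Function.update ![x, y, z] 1 y' = ![x, y', z] := by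
    intro x y y' z; ext1 i; fin_cases i <;> simp
  have u2 : ∀ x y z z' : C(K, ℝ), Function.update ![x, y, z] 2 z' = ![x, y, z'] := by
    intro x y z z'; ext1 i; fin_cases i <;> simp
  let D : Tri C(K, ℝ) := mk₃ (fun x y z => (B - A) ![x, y, z])
    (fun x x' y z => by simpa only [u0] using (B - A).map_update_add ![x, y, z] 0 x x')
    (fun c x y z => by simpa only [u0, smul_eq_mul] using (B - A).map_update_smul ![x, y, z] 0 c x)
    (fun x y y' z => by simpa only [u1] using (B - A).map_update_add ![x, y, z] 1 y y')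
    (fun c x y z => by simpa only [u1, smul_eq_mul] using (B - A).map_update_smul ![x, y, z] 1 c y)
    (fun x y z z' => by simpa only [u2] using (B - A).map_update_add ![x, y, z] 2 z z')
    (fun c x y z => by simpa only [u2, smul_eq_mul] using (B - A).map_update_smul ![x, y, z] 2 c z)
  have hD0 : ∀ x y z, D x y z = -(A - B) ![x, y, z] := fun _ _ _ => by simp [D]
  have hD : ∀ x y z, Z.A hβ x y z + D x y z = B ![x, y, z] := by
    intro x y z
    rw [← hA, hD0]
    simp
  have hle : ∀ (C : ContinuousMultilinearMap ℝ (fun _ : Fin 3 => C(K, ℝ)) ℝ) x y z,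
      ‖x‖ ≤ 1 → ‖y‖ ≤ 1 → ‖z‖ ≤ 1 → |C ![x, y, z]| ≤ ‖C‖ := by
    intro C x y z hx hy hz
    refine C.unit_le_opNorm ((pi_norm_le_iff_of_nonneg zero_le_one).2 fun i => ?_)
    fin_cases i <;> simpa
  have hDb : Bdd D (1 / 1000) :=
    bdd_of_unit _ _ fun x y z hx hy hz => by
      rw [hD0, abs_neg]
      exact (hle (A - B) x y z hx hy hz).trans hB1.le
  have hf3 : f = ![f 0, f 1, f 2] := by ext1 i; fin_cases i <;> simp
  rw [hf3, ← hD] at hfB
  rcases (abs_eq (norm_nonneg B)).1 hfB with h | h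
  · refine Z.no_max hβ D hDb (hf 0) (hf 1) (hf 2) fun x y z hx hy hz => ?_
    rw [h, hD]
    exact (le_abs_self _).trans (hle B x y z hx hy hz)
  · refine Z.no_max hβ D hDb (F := -f 0) (by simpa using hf 0) (hf 1) (hf 2)
      fun x y z hx hy hz => ?_
    have := (le_abs_self _).trans (hle B x y z hx hy hz)
    rw [← hD] at this
    simp only [map_neg, LinearMap.neg_apply]
    linarith

/-- No density when the space contains a nondegenerate metrizable continuum. -/
theorem not_dense_of_continuum {K C : Type*} [TopologicalSpace K] [CompactSpace K] [T2Space K]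
    [MetricSpace C] [CompactSpace C] [ConnectedSpace C] [Nontrivial C] (j : C(C, K))
    (hj : Function.Injective j) :
    ¬ Dense {B : ContinuousMultilinearMap ℝ (fun _ : Fin 3 => C(K, ℝ)) ℝ |
      ∃ f : Fin 3 → C(K, ℝ), (∀ i, ‖f i‖ ≤ 1) ∧ |B f| = ‖B‖} := by
  let β : ℕ → ℝ := fun n => 1 / 1000 / 2 / 2 ^ n
  have hβ : ∀ s : Finset ℕ, ∑ n ∈ s, β n ≤ 1 / 1000 := fun s =>
    sum_le_hasSum s (fun n _ => by positivity) (hasSum_geometric_two' (1 / 1000))
  let G : ∀ n, Gadget (β n) := fun n => (exists_gadget (β n) (by positivity)).some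
  obtain ⟨S⟩ := exists_setup G
  obtain ⟨Z⟩ := exists_emb j hj S
  exact not_dense_of_emb Z hβ

/-- The classification for compact metrizable spaces. -/
theorem dense_iff_totallyDisconnected (K : Type*) [TopologicalSpace K] [CompactSpace K]
    [TopologicalSpace.MetrizableSpace K] :
    Dense {B : ContinuousMultilinearMap ℝ (fun _ : Fin 3 => C(K, ℝ)) ℝ |
      ∃ f : Fin 3 → C(K, ℝ), (∀ i, ‖f i‖ ≤ 1) ∧ |B f| = ‖B‖} ↔ TotallyDisconnectedSpace K := by
  refine ⟨fun hd => ?_, fun _ => dense_attaining⟩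
  let := TopologicalSpace.metrizableSpaceMetric K
  refine totallyDisconnectedSpace_iff_connectedComponent_subsingleton.2 fun x => ?_
  by_contra hx
  have h1 : CompactSpace (connectedComponent x) :=
    isCompact_iff_compactSpace.1 isClosed_connectedComponent.isCompact
  have h2 : ConnectedSpace (connectedComponent x) :=
    isConnected_iff_connectedSpace.1 isConnected_connectedComponent
  have h3 : Nontrivial (connectedComponent x) :=
    (Set.nontrivial_coe_sort).2 (Set.not_subsingleton_iff.1 hx)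
  exact not_dense_of_continuum (C := connectedComponent x)
    ⟨Subtype.val, continuous_subtype_val⟩ Subtype.val_injective hd

end Pool.Agent.MP_ce1e3b_an.Cl
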